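import Pool.Agent.Work.MP_f0c219_gt_h31.S1

/-!
# The metric on the truncated hyperbolic space
-/

open Set Topology Filter
open scoped ComplexConjugate

namespace Pool.Agent.Work.MP_f0c219_gt.CoreMetric

open Model Borromean TruncHyp

theorem exists_good (q : Bor.Core) : ∃ γ, Good γ q := by
  obtain ⟨γ₀, h⟩ := exists_max_height q.1
  refine ⟨γ₀, fun γ' => ?_⟩
  by_cases hc : (γ' * γ₀⁻¹) 1 0 = 0
  · exact Or.inl hc
  · right
    have h1 := height_of_c_ne_zero hc (toC γ₀ • q.1)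
    rw [← mul_smul, ← map_mul, inv_mul_cancel_right] at h1
    have h2 : (toC γ' • q.1).1.2 ≤ (toC γ₀ • q.1).1.2 := by
      rw [smul_height, smul_height]
      exact div_le_div_of_nonneg_left q.1.2.le (den_pos _ _) (h γ')
    have h3 : 0 < (toC γ' • q.1).1.2 := (toC γ' • q.1).2
    rw [tau_height]
    nlinarith

theorem good_of_height {γ : SL2Gi} {q : Bor.Core} (h : 1 / 16 < (tau γ q).1.2) : Good γ q := by
  intro γ'
  by_cases hc : (γ' * γ⁻¹) 1 0 = 0
  · exact Or.inl hc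
  · right
    have h1 := height_of_c_ne_zero hc (toC γ • q.1)
    rw [← mul_smul, ← map_mul, inv_mul_cancel_right] at h1
    rw [tau_height] at h ⊢
    have h3 : 0 < (toC γ' • q.1).1.2 := (toC γ' • q.1).2
    nlinarith

theorem continuous_tau (γ : SL2Gi) : Continuous (tau γ) := by
  have h0 : Continuous (fun q : Bor.Core => q.1) := continuous_subtype_val
  have h1 : Continuous (fun q : Bor.Core => D4⁻¹ • (toC γ • q.1)) :=
    (continuous_smul D4⁻¹).comp ((continuous_smul (toC γ)).comp h0)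
  exact Continuous.subtype_mk (continuous_subtype_val.comp h1) _

theorem continuous_dTH (x : TH) : Continuous (fun y : TH => dTH x y) := by
  have := continuousOn_dT x.2
  rw [continuousOn_iff_continuous_domRestrict] at this
  exact this

theorem continuous_hC : Continuous (fun p : H3 × H3 => hC p.1.1 p.2.1) := by
  unfold hC
  apply Continuous.div
  · fun_prop
  · fun_prop
  · rintro ⟨p, q⟩
    have hp := p.2
    have hq := q.2
    positivity

theorem hC_self (q : H3) : hC q.1 q.1 = 1 := by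
  have := q.2
  unfold hC
  rw [sub_self, norm_zero]
  field_simp
  ring

theorem tendsto_DD (q : Bor.Core) : Tendsto (fun q' => DD q q') (𝓝 q) (𝓝 0) := by
  obtain ⟨γ, hg⟩ := exists_good q
  have h1 : Continuous (fun q' : Bor.Core => min (dTH (tau γ q) (tau γ q')) 1) :=
    ((continuous_dTH _).comp (continuous_tau γ)).min continuous_const
  have h2 := h1.tendsto q
  simp only [dTH_self] at h2
  rw [min_eq_left zero_le_one] at h2
  refine h2.congr' ?_
  have h3 : Continuous (fun q' : Bor.Core => hC q.1.1 q'.1.1) :=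
    continuous_hC.comp (continuous_const.prodMk continuous_subtype_val)
  have h4 : {q' : Bor.Core | hC q.1.1 q'.1.1 < 2} ∈ 𝓝 q := by
    apply (isOpen_lt h3 continuous_const).mem_nhds
    change hC q.1.1 q.1.1 < 2
    rw [hC_self]
    norm_num
  filter_upwards [h4] with q' hq'
  exact (DD_eq_of_good hg (by rw [hC_self]; norm_num) (le_of_lt hq')).symm

theorem surj {γ : SL2Gi} {q : Bor.Core} (hg : Good γ q) {x : TH} (hx : dTH (tau γ q) x < 1) :
    ∃ q', tau γ q' = x ∧ DD q q' < 1 := by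
  set p : H3 := (toC γ)⁻¹ • (D4 • (⟨x.1, x.2.1⟩ : H3)) with hp
  have hcosh : hC (tau γ q).1 x.1 ≤ 2 := by
    have h1 := arcosh_le_dTH (tau γ q) x
    by_contra h2
    push Not at h2
    have := le_arcosh (one_le_hC (tau γ q).2 x.2) (cosh_one_le.trans h2.le)
    linarith
  have hback : D4⁻¹ • (toC γ • p) = (⟨x.1, x.2.1⟩ : H3) := by
    rw [hp, smul_inv_smul, inv_smul_smul]
  have hhC : hC q.1.1 p.1 ≤ 2 := by
    have h1 : hC q.1.1 p.1 = hC (tau γ q).1 x.1 := by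
      change _ = hC (D4⁻¹ • (toC γ • q.1)).1 (⟨x.1, x.2.1⟩ : H3).1
      rw [← hback, hC_smul, hC_smul]
    rw [h1]
    exact hcosh
  have hcore : ∀ γ' : SL2Gi, (toC γ' • p).1.2 ≤ 16 := by
    intro γ'
    rcases hg γ' with h | h
    · have h1 : toC γ' • p = toC (γ' * γ⁻¹) • (D4 • (⟨x.1, x.2.1⟩ : H3)) := by
        rw [map_mul, mul_smul, map_inv, hp]
      rw [h1, height_of_c_eq_zero h, (D4_smul _).2]
      have := x.2.2
      simp only
      linarith
    · rw [tau_height] at h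
      rw [← hC_smul (toC γ')] at hhC
      have h2 := height_le (toC γ' • q.1).2 (toC γ' • p).2 hhC
      linarith
  refine ⟨⟨p, mem_core hcore⟩, ?_, ?_⟩
  · have h1 : (D4⁻¹ • (toC γ • p)).1 = x.1 := by rw [hback]
    exact Subtype.ext h1
  · have hself : hC q.1.1 q.1.1 ≤ 2 := by rw [hC_self]; norm_num
    have h0 : DD q ⟨p, mem_core hcore⟩ = min (dTH (tau γ q) (tau γ ⟨p, mem_core hcore⟩)) 1 :=
      DD_eq_of_good (q' := q) (q'' := ⟨p, mem_core hcore⟩) hg hself hhC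
    have h1 : tau γ ⟨p, mem_core hcore⟩ = x := by
      have h1 : (D4⁻¹ • (toC γ • p)).1 = x.1 := by rw [hback]
      exact Subtype.ext h1
    rw [h0, h1]
    exact (min_le_left _ _).trans_lt hx

theorem DD_smul (g : Bor.Γ) (q q' : Bor.Core) : DD (g • q) (g • q') = DD q q' := by
  obtain ⟨δ, hδ, h⟩ := mem_Γ.1 g.2
  have ht : ∀ (γ : SL2Gi) (p : Bor.Core), tau γ (g • p) = tau (γ * δ) p := by
    intro γ p
    have h1 : toC γ • (g • p).1 = toC (γ * δ) • p.1 := by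
      rw [core_smul_val, ← h, map_mul, mul_smul]
    have h2 : (D4⁻¹ • (toC γ • (g • p).1)).1 = (D4⁻¹ • (toC (γ * δ) • p.1)).1 := by rw [h1]
    exact Subtype.ext h2
  unfold DD
  simp only [ht]
  have h1 := (Equiv.mulRight δ).iSup_comp
    (g := fun γ : SL2Gi => min (dTH (tau γ q) (tau γ q')) 1)
  simp only [Equiv.coe_mulRight] at h1
  exact h1

theorem isCompact_box (M : ℝ) (hM : 1 ≤ M) :
    IsCompact {q : H3 | ‖q.1.1‖ ≤ 5 * M ∧ 1 / (4 * M) ≤ q.1.2 ∧ q.1.2 ≤ 4 * M} := by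
  have h1 : IsCompact (Metric.closedBall (0 : ℂ) (5 * M) ×ˢ Icc (1 / (4 * M) : ℝ) (4 * M)) :=
    (isCompact_closedBall 0 _).prod isCompact_Icc
  have h2 : {q : H3 | ‖q.1.1‖ ≤ 5 * M ∧ 1 / (4 * M) ≤ q.1.2 ∧ q.1.2 ≤ 4 * M} =
      Subtype.val ⁻¹' (Metric.closedBall (0 : ℂ) (5 * M) ×ˢ Icc (1 / (4 * M) : ℝ) (4 * M)) := by
    ext q
    simp only [Set.mem_ofPred_eq, Set.mem_preimage, Set.mem_prod, Metric.mem_closedBall,
      dist_zero_right, Set.mem_Icc]
  rw [h2]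
  refine (Topology.IsInducing.isCompact_preimage_iff Topology.IsInducing.subtypeVal ?_).2 h1
  rintro ⟨z, t⟩ ⟨_, ht⟩
  have h3 : (0 : ℝ) < 1 / (4 * M) := by positivity
  have ht0 : (0 : ℝ) < t := lt_of_lt_of_le h3 ht.1
  exact ⟨⟨(z, t), ht0⟩, rfl⟩

theorem eq_of_hC {p q : H3} (h : hC p.1 q.1 ≤ 1) : p = q := by
  have hp := p.2
  have hq := q.2
  unfold hC at h
  rw [div_le_one (by positivity)] at h
  have h1 : ‖p.1.1 - q.1.1‖ ^ 2 + (p.1.2 - q.1.2) ^ 2 ≤ 0 := by nlinarith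
  have h2 : ‖p.1.1 - q.1.1‖ = 0 := by
    have := sq_nonneg (p.1.2 - q.1.2)
    have h3 : ‖p.1.1 - q.1.1‖ ^ 2 ≤ 0 := by linarith
    exact pow_eq_zero_iff (two_ne_zero) |>.1 (le_antisymm h3 (sq_nonneg _))
  have h3 : p.1.2 - q.1.2 = 0 := by
    have := sq_nonneg ‖p.1.1 - q.1.1‖
    have h3 : (p.1.2 - q.1.2) ^ 2 ≤ 0 := by linarith
    exact pow_eq_zero_iff (two_ne_zero) |>.1 (le_antisymm h3 (sq_nonneg _))
  apply Subtype.ext
  exact Prod.ext (sub_eq_zero.1 (norm_eq_zero.1 h2)) (by linarith)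

/-- Uniform displacement on a compact set. -/
theorem exists_eps {K : Set H3} (hK : IsCompact K) : ∃ ε : ℝ, 0 < ε ∧ ∀ γ : SL2Gi, InGam γ →
    toC γ ≠ 1 → toC γ ≠ -1 → ∀ q ∈ K, 1 + ε ≤ hC q.1 (toC γ • q).1 := by
  obtain ⟨M, hM, hb⟩ := exists_compact_bound hK
  have hfin := finite_meet (isCompact_box M hM)
  set F := {γ : SL2Gi | (((fun q => toC γ • q) ''
    {q : H3 | ‖q.1.1‖ ≤ 5 * M ∧ 1 / (4 * M) ≤ q.1.2 ∧ q.1.2 ≤ 4 * M}) ∩
    {q : H3 | ‖q.1.1‖ ≤ 5 * M ∧ 1 / (4 * M) ≤ q.1.2 ∧ q.1.2 ≤ 4 * M}).Nonempty} with hF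
  have hin : ∀ γ : SL2Gi, ∀ q ∈ K, hC q.1 (toC γ • q).1 ≤ 2 → γ ∈ F := by
    intro γ q hq h2
    obtain ⟨b1, b2, b3⟩ := hb q hq
    have hq0 : 0 < q.1.2 := q.2
    have hq1 : 0 < (toC γ • q).1.2 := (toC γ • q).2
    have h3 := height_le hq0 hq1 h2
    have h4 : q.1.2 ≤ 4 * (toC γ • q).1.2 := by
      apply height_le hq1 hq0
      rw [hC_comm]
      exact h2
    have h5 : ‖q.1.1 - (toC γ • q).1.1‖ ^ 2 ≤ (4 * M) ^ 2 := by
      unfold hC at h2
      rw [div_le_iff₀ (by positivity)] at h2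
      have h6 : q.1.2 * (toC γ • q).1.2 ≤ M * (4 * M) := by
        apply mul_le_mul b3 _ hq1.le (by linarith)
        linarith
      nlinarith [sq_nonneg q.1.2, sq_nonneg (toC γ • q).1.2]
    have h6 : ‖q.1.1 - (toC γ • q).1.1‖ ≤ 4 * M :=
      (sq_le_sq₀ (norm_nonneg _) (by linarith)).1 h5
    have h7 : ‖(toC γ • q).1.1‖ ≤ ‖q.1.1‖ + ‖q.1.1 - (toC γ • q).1.1‖ := by
      have := norm_sub_le q.1.1 (q.1.1 - (toC γ • q).1.1)
      rwa [sub_sub_cancel] at this
    refine ⟨toC γ • q, ⟨q, ⟨by linarith, ?_, by linarith⟩, rfl⟩, ⟨by linarith, ?_, by linarith⟩⟩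
    · rw [div_le_iff₀ (by linarith)]
      linarith
    · rw [div_le_iff₀ (by linarith)]
      nlinarith
  have hone : ∀ γ : SL2Gi, ∃ ε : ℝ, 0 < ε ∧ (InGam γ → toC γ ≠ 1 → toC γ ≠ -1 → ∀ q ∈ K,
      1 + ε ≤ hC q.1 (toC γ • q).1) := by
    intro γ
    by_cases hγ : InGam γ ∧ toC γ ≠ 1 ∧ toC γ ≠ -1
    · rcases K.eq_empty_or_nonempty with hK0 | hK0
      · exact ⟨1, one_pos, fun _ _ _ q hq => by rw [hK0] at hq; exact hq.elim⟩
      · have hcont : Continuous (fun q : H3 => hC q.1 (toC γ • q).1) :=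
          continuous_hC.comp (continuous_id.prodMk (continuous_smul (toC γ)))
        obtain ⟨q₀, hq₀, hmin⟩ := hK.exists_isMinOn hK0 hcont.continuousOn
        refine ⟨hC q₀.1 (toC γ • q₀).1 - 1, ?_, ?_⟩
        · by_contra h
          push Not at h
          have h1 : q₀ = toC γ • q₀ := eq_of_hC (by linarith)
          rcases gam_free hγ.1 q₀ h1.symm with h2 | h2
          · exact hγ.2.1 h2
          · exact hγ.2.2 h2
        · intro _ _ _ q hq
          have := hmin hq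
          simp only [Set.mem_ofPred_eq] at this
          linarith
    · refine ⟨1, one_pos, fun h1 h2 h3 => (hγ ⟨h1, h2, h3⟩).elim⟩
  choose e he0 he using hone
  obtain ⟨ε, hε0, hε⟩ : ∃ ε : ℝ, 0 < ε ∧ ∀ γ ∈ F, ε ≤ e γ := by
    rcases F.eq_empty_or_nonempty with hF0 | hF0
    · exact ⟨1, one_pos, fun γ hγ => by rw [hF0] at hγ; exact hγ.elim⟩
    · obtain ⟨γ₀, -, hm⟩ := Set.exists_min_image F e hfin hF0
      exact ⟨e γ₀, he0 γ₀, hm⟩
  refine ⟨min ε 1, lt_min hε0 one_pos, ?_⟩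
  intro γ h1 h2 h3 q hq
  by_cases h4 : hC q.1 (toC γ • q).1 ≤ 2
  · have h5 := hε γ (hin γ q hq h4)
    have h6 := he γ h1 h2 h3 q hq
    have h7 := min_le_left ε 1
    linarith
  · push Not at h4
    have h7 := min_le_right ε 1
    linarith

theorem neg_one_smul' (q : H3) : (-1 : SL2C) • q = q := by
  have h : toC (-1) = (-1 : SL2C) := by
    apply Matrix.SpecialLinearGroup.ext
    intro i j
    rw [toC_entry]
    rw [Matrix.SpecialLinearGroup.coe_neg, Matrix.SpecialLinearGroup.coe_neg]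
    fin_cases i <;> fin_cases j <;> simp
  rw [← h, neg_toC_smul, map_one, one_smul]

theorem displacement : ∃ ε : ℝ, 0 < ε ∧ ∀ g : Bor.Γ, (∀ q : Bor.Core, g • q = q) ∨
    ∀ q : Bor.Core, ε ≤ DD q (g • q) := by
  obtain ⟨K, hK, hcov⟩ := Bor.cocompact
  obtain ⟨ε, hε, hdis⟩ := exists_eps hK
  refine ⟨min (Real.arcosh (1 + ε)) 1, lt_min (Real.arcosh_pos (by linarith)) one_pos, ?_⟩
  intro g
  by_cases hg : g.1 = 1 ∨ g.1 = -1
  · left
    intro q
    apply Subtype.ext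
    rw [core_smul_val]
    rcases hg with h | h
    · rw [h, one_smul]
    · rw [h, neg_one_smul']
  · right
    push Not at hg
    intro q
    obtain ⟨k, hk, hkq⟩ := hcov q.1 q.2
    set k' : Bor.Γ := ⟨k, hk⟩ with hk'
    have h1 : DD q (g • q) = DD (k' • q) ((k' * g * k'⁻¹) • (k' • q)) := by
      rw [← mul_smul, inv_mul_cancel_right, mul_smul, DD_smul]
    rw [h1]
    refine le_trans ?_ (le_DD _ _)
    apply min_le_min_right
    obtain ⟨δ, hδ, h⟩ := mem_Γ.1 (k' * g * k'⁻¹).2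
    have hne1 : toC δ ≠ 1 := by
      rw [h]
      intro h2
      apply hg.1
      have h3 : k' * g * k'⁻¹ = 1 := Subtype.ext h2
      have h4 : g = 1 := by
        rw [mul_inv_eq_one, mul_eq_left] at h3
        exact h3
      rw [h4]
      rfl
    have hne2 : toC δ ≠ -1 := by
      rw [h]
      intro h2
      apply hg.2
      have h3 : k * g.1 * k⁻¹ = -1 := h2
      have h4 : g.1 = k⁻¹ * (k * g.1 * k⁻¹) * k := by group
      rw [h4, h3, mul_neg, mul_one, neg_mul, inv_mul_cancel]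
    have h2 := hdis δ hδ hne1 hne2 (k' • q).1 hkq
    rw [h] at h2
    exact le_arcosh (one_le_hC' _ _) (by rw [Real.cosh_arcosh (by linarith)]; exact h2)

theorem exists_coreMetric : ∃ m : MetricSpace Bor.Core,
    (∀ (g : Bor.Γ) (q q' : Bor.Core), m.dist (g • q) (g • q') = m.dist q q') ∧
    (∀ q, Tendsto (fun q' => m.dist q q') (𝓝 q) (𝓝 0)) ∧
    (∀ γ q, Good γ q → ∀ q' q'', m.dist q q' < 1 → m.dist q q'' < 1 →
      m.dist q' q'' = min (dTH (tau γ q') (tau γ q'')) 1) ∧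
    (∀ γ q, Good γ q → ∀ x : TH, dTH (tau γ q) x < 1 → ∃ q', tau γ q' = x ∧ m.dist q q' < 1) ∧
    ∃ ε : ℝ, 0 < ε ∧ ∀ g : Bor.Γ, (∀ q : Bor.Core, g • q = q) ∨
      ∀ q : Bor.Core, ε ≤ m.dist q (g • q) := by
  refine ⟨coreM, DD_smul, fun q => tendsto_DD q, ?_, ?_, displacement⟩
  · intro γ q hg q' q'' h1 h2
    exact DD_eq_of_good hg (hC_le_two h1) (hC_le_two h2)
  · intro γ q hg x hx
    exact surj hg hx

end Pool.Agent.Work.MP_f0c219_gt.CoreMetric

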