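import Pool.Agent.Work.MP_f0c219_gt_h31.D5

/-!
# Block D: hyperbolic 3-space minus a horoball is CAT(0)
-/

open Set Topology Filter

namespace Pool.Agent.Work.MP_f0c219_gt.TruncHyp

/-- Upper half space below the horosphere at height one. -/
abbrev TH : Type := {q : ℂ × ℝ // 0 < q.2 ∧ q.2 ≤ 1}

/-- The path metric of hyperbolic 3-space minus the open horoball `{t > 1}`. -/
noncomputable def dTH (p q : TH) : ℝ :=
  if ‖p.1.1 - q.1.1‖ ≤ √(1 - p.1.2 ^ 2) + √(1 - q.1.2 ^ 2) then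
    Real.arcosh ((‖p.1.1 - q.1.1‖ ^ 2 + p.1.2 ^ 2 + q.1.2 ^ 2) / (2 * p.1.2 * q.1.2))
  else (Real.artanh (√(1 - p.1.2 ^ 2)) - √(1 - p.1.2 ^ 2)) +
    (Real.artanh (√(1 - q.1.2 ^ 2)) - √(1 - q.1.2 ^ 2)) + ‖p.1.1 - q.1.1‖

theorem dTH_eq (p q : TH) : dTH p q = dT p.1 q.1 := rfl

theorem hasPath (p q : TH) (hne : p ≠ q) : HasPath p.1 q.1 := by
  rcases le_or_gt ‖p.1.1 - q.1.1‖ (uu p.1.2 + uu q.1.2) with h | h
  · exact hasPath_of_le p.2 q.2 (fun h => hne (Subtype.ext h)) h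
  · exact hasPath_of_lt p.2 q.2 h

theorem exists_geodesic (x y : TH) : ∃ γ : ℝ → TH, γ 0 = x ∧ γ 1 = y ∧
    ∀ p : TH, ∀ t ∈ Icc (0 : ℝ) 1, dTH p (γ t) ^ 2 ≤ (1 - t) * dTH p x ^ 2 + t * dTH p y ^ 2
      - t * (1 - t) * dTH x y ^ 2 := by
  rcases eq_or_ne x y with rfl | hne
  · refine ⟨fun _ => x, rfl, rfl, fun p t _ => ?_⟩
    have : dTH x x = 0 := dT_self x.1 x.2
    rw [this]
    apply le_of_eq
    ring
  obtain ⟨P, h0, h1, hok, hc, hloc⟩ := hasPath x y hne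
  set L := dT x.1 y.1 with hL
  have hLpos : 0 < L := lt_of_le_of_ne (dT_nonneg x.2 y.2)
    (fun h => hne (Subtype.ext (eq_of_dT x.2 y.2 h.symm)))
  classical
  set γ : ℝ → TH := fun t => if h : Ok (P (t * L)) then ⟨P (t * L), h⟩ else x with hγ
  have hval : ∀ t ∈ Icc (0 : ℝ) 1, (γ t).1 = P (t * L) := by
    intro t ht
    have : Ok (P (t * L)) := hok _ ⟨by nlinarith [ht.1], by nlinarith [ht.2]⟩
    simp only [hγ, dif_pos this]
  refine ⟨γ, ?_, ?_, ?_⟩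
  · apply Subtype.ext
    rw [hval 0 ⟨le_rfl, zero_le_one⟩, zero_mul, h0]
  · apply Subtype.ext
    rw [hval 1 ⟨zero_le_one, le_rfl⟩, one_mul, h1]
  · intro p t ht
    have h := ineq_of_path p.2 hLpos hok hc hloc ht
    rw [h0, h1] at h
    simp only [dTH_eq]
    rw [hval t ht]
    exact h

theorem isOpen_iff_dTH (s : Set TH) : IsOpen s ↔ ∀ x ∈ s, ∃ ε > 0, ∀ y, dTH x y < ε → y ∈ s := by
  constructor
  · intro hs x hx
    obtain ⟨η, hη, hball⟩ := Metric.isOpen_iff.1 hs x hx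
    refine ⟨Real.arcosh (1 + η ^ 2 / 2), Real.arcosh_pos (by linarith [sq_pos_of_pos hη]), ?_⟩
    intro y hy
    apply hball
    have hy' : dT x.1 y.1 < Real.arcosh (1 + η ^ 2 / 2) := hy
    have h1 : Real.cosh (dT x.1 y.1) < 1 + η ^ 2 / 2 := by
      have h2 := Real.cosh_lt_cosh.2 (show |dT x.1 y.1| < |Real.arcosh (1 + η ^ 2 / 2)| by
        rw [abs_of_nonneg (dT_nonneg x.2 y.2)]
        exact lt_of_lt_of_le hy' (le_abs_self _))
      rwa [Real.cosh_arcosh (by linarith [sq_nonneg η])] at h2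
    have h3 := hC_le x.2 y.2
    have h4 := hC_sub_one x.2 y.2
    have hx0 : 0 < x.1.2 := x.2.1
    have hy0 : 0 < y.1.2 := y.2.1
    have hx1 : x.1.2 ≤ 1 := x.2.2
    have hy1 : y.1.2 ≤ 1 := y.2.2
    have h5 : ‖x.1.1 - y.1.1‖ ^ 2 + (x.1.2 - y.1.2) ^ 2 < η ^ 2 := by
      rw [h4]
      have h6 : hC x.1 y.1 - 1 < η ^ 2 / 2 := by linarith
      have h7 : x.1.2 * y.1.2 ≤ 1 := by nlinarith
      have h8 : 0 ≤ hC x.1 y.1 - 1 := by linarith [one_le_hC x.2 y.2]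
      have h9 : x.1.2 * y.1.2 * (hC x.1 y.1 - 1) ≤ 1 * (hC x.1 y.1 - 1) :=
        mul_le_mul_of_nonneg_right h7 h8
      nlinarith
    rw [Metric.mem_ball, dist_comm, Subtype.dist_eq, Prod.dist_eq, max_lt_iff, dist_eq_norm,
      Real.dist_eq]
    constructor
    · apply lt_of_pow_lt_pow_left₀ 2 hη.le
      nlinarith [sq_nonneg (x.1.2 - y.1.2)]
    · apply abs_lt_of_sq_lt_sq _ hη.le
      nlinarith [sq_nonneg ‖x.1.1 - y.1.1‖]
  · intro h
    rw [isOpen_iff_mem_nhds]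
    intro x hx
    obtain ⟨ε, hε, hball⟩ := h x hx
    have hcont : Continuous (fun y : TH => dTH x y) := by
      have := continuousOn_dT x.2
      rw [continuousOn_iff_continuous_domRestrict] at this
      exact this
    have h1 : {y : TH | dTH x y < ε} ∈ 𝓝 x := by
      apply (isOpen_lt hcont continuous_const).mem_nhds
      change dTH x x < ε
      rw [dTH_eq, dT_self x.1 x.2]; exact hε
    exact Filter.mem_of_superset h1 (fun y hy => hball y hy)

theorem truncHyp : ∃ m : MetricSpace TH, (∀ p q, m.dist p q = dTH p q) ∧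
    m.toUniformSpace.toTopologicalSpace = (inferInstance : TopologicalSpace TH) ∧
    @IsCAT0 TH m := by
  choose γ hγ0 hγ1 hγ using exists_geodesic
  refine ⟨MetricSpace.ofDistTopology dTH (fun x => dT_self x.1 x.2) (fun x y => dT_comm x.1 y.1)
    (fun x y z => triangle_of_bicombing dTH (fun a b => dT_nonneg a.2 b.2)
      (fun a b => dT_comm a.1 b.1) γ (fun p a b t ht => hγ a b p t ht) x z y) isOpen_iff_dTH
    (fun x y h => Subtype.ext (eq_of_dT x.2 y.2 h)), fun _ _ => rfl, rfl, ?_⟩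
  exact @isCAT0_of_bicombing TH (_) γ hγ0 hγ1 (fun p a b t ht => hγ a b p t ht)

end Pool.Agent.Work.MP_f0c219_gt.TruncHyp

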