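import Pool.Agent.Work.MP_f0c219_gt.Cat0

/-!
# Block D, part 1: one-variable lemmas
-/

open Set Topology Filter

namespace Pool.Agent.Work.MP_f0c219_gt.TruncHyp

/-- A continuous function with approximate lower supports is convex. -/
theorem le_interp {φ : ℝ → ℝ} {L : ℝ} (hL : 0 < L) (hc : ContinuousOn φ (Icc 0 L))
    (hs : ∀ s ∈ Ioo 0 L, ∃ m : ℝ, ∀ ε : ℝ, 0 < ε → ∀ᶠ h in 𝓝 (0 : ℝ),
      φ s + m * h - ε * h ^ 2 ≤ φ (s + h))
    {s : ℝ} (hs0 : s ∈ Icc 0 L) : φ s ≤ (1 - s / L) * φ 0 + s / L * φ L := by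
  by_contra hlt
  push Not at hlt
  set g : ℝ := φ s - ((1 - s / L) * φ 0 + s / L * φ L) with hg
  have hg0 : 0 < g := by rw [hg]; linarith
  set η : ℝ := g / (2 * L ^ 2) with hη
  have hη0 : 0 < η := by positivity
  have hηL : η * L ^ 2 = g / 2 := by rw [hη]; field_simp
  set ψ : ℝ → ℝ := fun x => φ x - ((1 - x / L) * φ 0 + x / L * φ L) - η * (x * (L - x)) with hψ
  have hψc : ContinuousOn ψ (Icc 0 L) := by
    rw [hψ]
    refine (hc.sub ?_).sub ?_ <;> fun_prop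
  obtain ⟨x0, hx0, hmax⟩ := isCompact_Icc.exists_isMaxOn (nonempty_Icc.2 hL.le) hψc
  have hψs : 0 < ψ s := by
    have h1 : s * (L - s) ≤ L ^ 2 := by nlinarith [hs0.1, hs0.2]
    have h2 : η * (s * (L - s)) ≤ g / 2 := by rw [← hηL]; exact mul_le_mul_of_nonneg_left h1 hη0.le
    have h3 : ψ s = g - η * (s * (L - s)) := by rw [hψ, hg]
    rw [h3]; linarith
  have hψx : 0 < ψ x0 := lt_of_lt_of_le hψs (hmax hs0)
  have hψ0 : ψ 0 = 0 := by simp [hψ]
  have hψL : ψ L = 0 := by simp only [hψ]; field_simp; ring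
  have hx1 : x0 ∈ Ioo 0 L := by
    refine ⟨lt_of_le_of_ne hx0.1 ?_, lt_of_le_of_ne hx0.2 ?_⟩
    · rintro rfl; linarith
    · rintro rfl; linarith
  obtain ⟨m, hm⟩ := hs x0 hx1
  have h1 := hm (η / 2) (by positivity)
  have h2 : ∀ᶠ h in 𝓝 (0 : ℝ), x0 + h ∈ Icc 0 L := by
    have h3 : Tendsto (fun h : ℝ => x0 + h) (𝓝 0) (𝓝 x0) := by
      have : Continuous (fun h : ℝ => x0 + h) := by fun_prop
      simpa using this.tendsto 0
    exact h3.eventually (Icc_mem_nhds hx1.1 hx1.2)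
  obtain ⟨δ, hδ, hball⟩ := Metric.eventually_nhds_iff.1 (h1.and h2)
  have key : ∀ h : ℝ, |h| < δ → φ x0 + m * h - η / 2 * h ^ 2 ≤ φ (x0 + h) ∧ ψ (x0 + h) ≤ ψ x0 := by
    intro h hh
    have := hball (by simpa using hh : dist h 0 < δ)
    exact ⟨this.1, hmax this.2⟩
  have k1 := key (δ / 2) (by rw [abs_of_pos (by positivity)]; linarith)
  have k2 := key (-(δ / 2)) (by rw [abs_neg, abs_of_pos (by positivity)]; linarith)
  obtain ⟨k1a, k1b⟩ := k1
  obtain ⟨k2a, k2b⟩ := k2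
  simp only [hψ] at k1b k2b
  have e1 : (x0 + δ / 2) / L = x0 / L + δ / 2 / L := by ring
  have e2 : (x0 + -(δ / 2)) / L = x0 / L - δ / 2 / L := by ring
  rw [e1] at k1b
  rw [e2] at k2b
  have : 0 < η * δ ^ 2 := by positivity
  nlinarith

/-- `cosh √x` as a power series. -/
theorem hasSum_cosh_sqrt {x : ℝ} (hx : 0 ≤ x) :
    HasSum (fun n : ℕ => x ^ n / ((2 * n).factorial : ℝ)) (Real.cosh √x) := by
  have h := Real.hasSum_cosh (√x)
  have e : (fun n : ℕ => x ^ n / ((2 * n).factorial : ℝ)) =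
      fun n : ℕ => √x ^ (2 * n) / ((2 * n).factorial : ℝ) := by
    funext n
    rw [pow_mul, Real.sq_sqrt hx]
  rw [e]; exact h

theorem cosh_sqrt_convex {x y a b : ℝ} (hx : 0 ≤ x) (hy : 0 ≤ y) (ha : 0 ≤ a) (hb : 0 ≤ b)
    (hab : a + b = 1) : Real.cosh √(a * x + b * y) ≤ a * Real.cosh √x + b * Real.cosh √y := by
  refine hasSum_le (fun n => ?_) (hasSum_cosh_sqrt (by positivity))
    (((hasSum_cosh_sqrt hx).mul_left a).add ((hasSum_cosh_sqrt hy).mul_left b))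
  have h := (convexOn_pow (𝕜 := ℝ) n).2 (mem_Ici.2 hx) (mem_Ici.2 hy) ha hb hab
  simp only [smul_eq_mul] at h
  have hf : (0 : ℝ) < ((2 * n).factorial : ℝ) := by positivity
  calc (a * x + b * y) ^ n / ((2 * n).factorial : ℝ)
      ≤ (a * x ^ n + b * y ^ n) / ((2 * n).factorial : ℝ) := by gcongr
    _ = a * (x ^ n / ((2 * n).factorial : ℝ)) + b * (y ^ n / ((2 * n).factorial : ℝ)) := by ring

theorem cosh_sqrt_sub {x y : ℝ} (hy : 0 ≤ y) (hxy : y ≤ x) :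
    (x - y) / 2 ≤ Real.cosh √x - Real.cosh √y := by
  have h := (hasSum_cosh_sqrt (hy.trans hxy)).sub (hasSum_cosh_sqrt hy)
  have h1 : HasSum (fun n : ℕ => if n = 1 then (x - y) / 2 else 0) ((x - y) / 2) := by
    have := hasSum_ite_eq (1 : ℕ) ((x - y) / 2)
    exact this
  refine hasSum_le (fun n => ?_) h1 h
  by_cases hn : n = 1
  · subst hn
    simp only [if_true]
    have : ((2 * 1).factorial : ℝ) = 2 := by norm_num [Nat.factorial]
    rw [this]
    simp only [pow_one]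
    linarith
  · rw [if_neg hn, ← sub_div]
    apply div_nonneg _ (by positivity)
    have := pow_le_pow_left₀ hy hxy n
    linarith

/-- The hyperbolic law of cosines is above the Euclidean one. -/
theorem law_cosines (a b l : ℝ) (h1 : -1 ≤ l) (h2 : l ≤ 1) :
    Real.cosh √(a ^ 2 + b ^ 2 - 2 * a * b * l) ≤
      Real.cosh a * Real.cosh b - l * (Real.sinh a * Real.sinh b) := by
  have h := cosh_sqrt_convex (sq_nonneg (a - b)) (sq_nonneg (a + b))
    (by linarith : 0 ≤ (1 + l) / 2) (by linarith : 0 ≤ (1 - l) / 2) (by ring)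
  rw [Real.sqrt_sq_eq_abs, Real.sqrt_sq_eq_abs, Real.cosh_abs, Real.cosh_abs, Real.cosh_sub,
    Real.cosh_add] at h
  have e : (1 + l) / 2 * (a - b) ^ 2 + (1 - l) / 2 * (a + b) ^ 2 =
      a ^ 2 + b ^ 2 - 2 * a * b * l := by ring
  rw [e] at h
  linarith

theorem abs_cosh_sub {x : ℝ} (hx : |x| ≤ 1) : |Real.cosh x - 1 - x ^ 2 / 2| ≤ 2 / 9 * |x| ^ 3 := by
  have h1 := Real.exp_bound hx (n := 3) (by norm_num)
  have h2 := Real.exp_bound (x := -x) (by rwa [abs_neg]) (n := 3) (by norm_num)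
  rw [abs_neg] at h2
  simp only [Finset.sum_range_succ, Finset.sum_range_zero, Nat.factorial] at h1 h2
  norm_num at h1 h2
  rw [abs_le] at h1 h2 ⊢
  rw [Real.cosh_eq]
  constructor <;> nlinarith [h1.1, h1.2, h2.1, h2.2]

theorem abs_sinh_sub {x : ℝ} (hx : |x| ≤ 1) : |Real.sinh x - x| ≤ 2 / 9 * |x| ^ 3 := by
  have h1 := Real.exp_bound hx (n := 3) (by norm_num)
  have h2 := Real.exp_bound (x := -x) (by rwa [abs_neg]) (n := 3) (by norm_num)
  rw [abs_neg] at h2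
  simp only [Finset.sum_range_succ, Finset.sum_range_zero, Nat.factorial] at h1 h2
  norm_num at h1 h2
  rw [abs_le] at h1 h2 ⊢
  rw [Real.sinh_eq]
  constructor <;> nlinarith [h1.1, h1.2, h2.1, h2.2]

theorem abs_tanh_sub {x : ℝ} (hx : |x| ≤ 1) : |Real.tanh x - x| ≤ |x| ^ 3 := by
  have h1 := abs_cosh_sub hx
  have h2 := abs_sinh_sub hx
  have hc : 1 ≤ Real.cosh x := Real.one_le_cosh x
  have hx0 := abs_nonneg x
  rw [Real.tanh_eq_sinh_div_cosh]
  have e : Real.sinh x / Real.cosh x - x = (Real.sinh x - x - x * (Real.cosh x - 1)) / Real.cosh x := by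
    field_simp; ring
  rw [e, abs_div, abs_of_pos (by linarith : 0 < Real.cosh x), div_le_iff₀ (by linarith)]
  have h3 : |Real.cosh x - 1| ≤ 13 / 18 * |x| ^ 2 := by
    have h4 : |Real.cosh x - 1| ≤ |Real.cosh x - 1 - x ^ 2 / 2| + |x ^ 2 / 2| := by
      have := abs_add_le (Real.cosh x - 1 - x ^ 2 / 2) (x ^ 2 / 2)
      simpa using this
    have h5 : |x ^ 2 / 2| = |x| ^ 2 / 2 := by rw [abs_div, abs_pow]; norm_num
    have h6 : |x| ^ 3 ≤ |x| ^ 2 := by nlinarith [mul_nonneg hx0 hx0]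
    nlinarith
  calc |Real.sinh x - x - x * (Real.cosh x - 1)|
      ≤ |Real.sinh x - x| + |x * (Real.cosh x - 1)| := abs_sub _ _
    _ ≤ 2 / 9 * |x| ^ 3 + |x| * (13 / 18 * |x| ^ 2) := by
        rw [abs_mul]; gcongr
    _ ≤ |x| ^ 3 * 1 := by nlinarith [pow_nonneg hx0 3]
    _ ≤ |x| ^ 3 * Real.cosh x := by gcongr

/-- Second order lower support of the square of a distance given by its hyperbolic cosine. -/
theorem support_of_cosh {a κ K δ : ℝ} (ha : 0 ≤ a) (hκ : |κ| ≤ Real.sinh a) (hK : 0 ≤ K)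
    (hδ : 0 < δ) {G : ℝ → ℝ} (hG : ∀ h, |h| < δ → 0 ≤ G h ∧
      Real.cosh a + κ * h + Real.cosh a / 2 * h ^ 2 - K * |h| ^ 3 ≤ Real.cosh (G h)) :
    ∃ m : ℝ, ∀ ε : ℝ, 0 < ε → ∀ᶠ h in 𝓝 (0 : ℝ),
      a ^ 2 + m * h + (1 - ε) * h ^ 2 ≤ G h ^ 2 := by
  obtain ⟨l, hl1, hl2, hl⟩ : ∃ l : ℝ, -1 ≤ l ∧ l ≤ 1 ∧ κ = -(l * Real.sinh a) := by
    rcases eq_or_lt_of_le (Real.sinh_nonneg_iff.2 ha) with h0 | h0
    · refine ⟨0, by norm_num, by norm_num, ?_⟩
      rw [← h0] at hκ ⊢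
      have := abs_nonpos_iff.1 hκ
      rw [this]; ring
    · refine ⟨-κ / Real.sinh a, ?_, ?_, by field_simp⟩
      · rw [le_div_iff₀ h0]; linarith [(abs_le.1 hκ).2]
      · rw [div_le_iff₀ h0]; linarith [(abs_le.1 hκ).1]
  refine ⟨-(2 * a * l), fun ε hε => ?_⟩
  set K' : ℝ := K + Real.cosh a + |κ| with hK'
  have hca := Real.one_le_cosh a
  have hκ0 := abs_nonneg κ
  have hK'0 : 0 < K' := by rw [hK']; linarith
  have hmin : 0 < min δ (min 1 (ε / (4 * K'))) := by positivity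
  filter_upwards [Metric.ball_mem_nhds (0 : ℝ) hmin] with h hh
  rw [mem_ball_zero_iff, Real.norm_eq_abs] at hh
  have hh1 : |h| < δ := lt_of_lt_of_le hh (min_le_left _ _)
  have hh2 : |h| ≤ 1 := (lt_of_lt_of_le hh ((min_le_right _ _).trans (min_le_left _ _))).le
  have hh3 : |h| < ε / (4 * K') := lt_of_lt_of_le hh ((min_le_right _ _).trans (min_le_right _ _))
  obtain ⟨hG0, hG1⟩ := hG h hh1
  rcases eq_or_ne h 0 with rfl | hne
  · -- the value at `0`
    simp only [mul_zero, add_zero, ne_eq, OfNat.ofNat_ne_zero, not_false_eq_true, zero_pow,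
      abs_zero, sub_zero] at hG1 ⊢
    have h1 : |a| ≤ |G 0| := Real.cosh_le_cosh.1 hG1
    rw [abs_of_nonneg ha, abs_of_nonneg hG0] at h1
    nlinarith
  by_contra hlt
  push Not at hlt
  set X : ℝ := a ^ 2 + h ^ 2 - 2 * a * h * l with hX
  have hlaw := law_cosines a h l hl1 hl2
  have hGX : G h ^ 2 ≤ X := by nlinarith [sq_nonneg h]
  have hsub := cosh_sqrt_sub (sq_nonneg (G h)) hGX
  rw [Real.sqrt_sq_eq_abs, Real.cosh_abs] at hsub
  have h2 : ε * h ^ 2 < X - G h ^ 2 := by rw [hX]; nlinarith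
  have hc := (abs_le.1 (abs_cosh_sub hh2)).2
  have hs := abs_le.1 (abs_sinh_sub hh2)
  have h3 : Real.cosh a * Real.cosh h ≤ Real.cosh a * (1 + h ^ 2 / 2 + 2 / 9 * |h| ^ 3) :=
    mul_le_mul_of_nonneg_left (by linarith) (by linarith)
  have h4 : -(l * (Real.sinh a * Real.sinh h)) ≤ κ * h + |κ| * (2 / 9 * |h| ^ 3) := by
    have h5 : -(l * (Real.sinh a * Real.sinh h)) = κ * h + κ * (Real.sinh h - h) := by
      rw [hl]; ring
    rw [h5]
    have h6 : κ * (Real.sinh h - h) ≤ |κ| * (2 / 9 * |h| ^ 3) := by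
      calc κ * (Real.sinh h - h) ≤ |κ * (Real.sinh h - h)| := le_abs_self _
        _ = |κ| * |Real.sinh h - h| := abs_mul _ _
        _ ≤ |κ| * (2 / 9 * |h| ^ 3) := by gcongr; exact abs_sinh_sub hh2
    linarith
  have hah : 0 < |h| := abs_pos.2 hne
  have h7 : |h| ^ 3 = |h| * h ^ 2 := by rw [← sq_abs h]; ring
  have h8 : 0 < h ^ 2 := by positivity
  have h9 : |h| * (4 * K') < ε := by
    rw [lt_div_iff₀ (by positivity)] at hh3; exact hh3
  have h10 : ε * h ^ 2 / 2 < K' * |h| ^ 3 := by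
    have h11 : (X - G h ^ 2) / 2 ≤ (K + 2 / 9 * Real.cosh a + 2 / 9 * |κ|) * |h| ^ 3 := by
      nlinarith
    have h12 : (K + 2 / 9 * Real.cosh a + 2 / 9 * |κ|) * |h| ^ 3 ≤ K' * |h| ^ 3 := by
      apply mul_le_mul_of_nonneg_right _ (by positivity)
      rw [hK']; linarith
    linarith
  rw [h7] at h10
  nlinarith

/-- Second order Taylor lower bound. -/
theorem support_of_deriv {g g' : ℝ → ℝ} {g2 : ℝ} (h1 : ∀ᶠ h in 𝓝 (0 : ℝ), HasDerivAt g (g' h) h)
    (h2 : HasDerivAt g' g2 0) (h3 : 2 ≤ g2) :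
    ∃ m : ℝ, ∀ ε : ℝ, 0 < ε → ∀ᶠ h in 𝓝 (0 : ℝ), g 0 + m * h + (1 - ε) * h ^ 2 ≤ g h := by
  refine ⟨g' 0, fun ε hε => ?_⟩
  have h4 := (hasDerivAt_iff_isLittleO.1 h2).def hε
  obtain ⟨δ, hδ, hball⟩ := Metric.eventually_nhds_iff.1 (h1.and h4)
  filter_upwards [Metric.ball_mem_nhds (0 : ℝ) hδ] with h hh
  rw [mem_ball_zero_iff, Real.norm_eq_abs] at hh
  set ψ : ℝ → ℝ := fun x => g x - g' 0 * x - g2 / 2 * x ^ 2 with hψ
  have hd : ∀ x ∈ uIcc 0 h, HasDerivAt ψ (g' x - g' 0 - g2 * x) x ∧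
      |g' x - g' 0 - g2 * x| ≤ ε * |h| := by
    intro x hx
    have hx1 : |x| ≤ |h| := by
      have := abs_sub_left_of_mem_uIcc hx
      simpa using this
    obtain ⟨e1, e2⟩ := hball (by simpa using lt_of_le_of_lt hx1 hh : dist x 0 < δ)
    constructor
    · have e3 : HasDerivAt (fun x : ℝ => g' 0 * x) (g' 0) x := by
        simpa using (hasDerivAt_id x).const_mul (g' 0)
      have e4 : HasDerivAt (fun x : ℝ => g2 / 2 * x ^ 2) (g2 * x) x := by
        have := (hasDerivAt_pow 2 x).const_mul (g2 / 2)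
        have e5 : g2 / 2 * (((2 : ℕ) : ℝ) * x ^ (2 - 1)) = g2 * x := by
          norm_num; ring
        rwa [e5] at this
      exact (e1.sub e3).sub e4
    · simp only [sub_zero, smul_eq_mul, Real.norm_eq_abs] at e2
      rw [mul_comm g2 x]
      exact e2.trans (mul_le_mul_of_nonneg_left hx1 hε.le)
  have hmv := Convex.norm_image_sub_le_of_norm_hasDerivWithin_le (f := ψ)
    (fun x hx => (hd x hx).1.hasDerivWithinAt) (fun x hx => by
      rw [Real.norm_eq_abs]; exact (hd x hx).2) (convex_uIcc 0 h) left_mem_uIcc right_mem_uIcc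
  rw [Real.norm_eq_abs, Real.norm_eq_abs, sub_zero] at hmv
  have h5 := (abs_le.1 hmv).1
  simp only [hψ] at h5
  have h6 : |h| * |h| = h ^ 2 := by rw [← sq_abs h]; ring
  nlinarith [sq_nonneg h]

end Pool.Agent.Work.MP_f0c219_gt.TruncHyp
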