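import Pool.Agent.Work.MP_f0c219_gt_h31.D1

/-!
# Block D, part 2: the distance formula
-/

open Set Topology Filter

namespace Pool.Agent.Work.MP_f0c219_gt.TruncHyp

/-- horizontal distance to the tangent point -/
noncomputable def uu (t : ℝ) : ℝ := √(1 - t ^ 2)

/-- distance to the tangent point -/
noncomputable def al (t : ℝ) : ℝ := Real.artanh (√(1 - t ^ 2))

/-- the hyperbolic cosine of the hyperbolic distance -/
noncomputable def hC (p q : ℂ × ℝ) : ℝ := (‖p.1 - q.1‖ ^ 2 + p.2 ^ 2 + q.2 ^ 2) / (2 * p.2 * q.2)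

/-- the distance formula -/
noncomputable def dT (p q : ℂ × ℝ) : ℝ :=
  if ‖p.1 - q.1‖ ≤ uu p.2 + uu q.2 then Real.arcosh (hC p q)
  else (al p.2 - uu p.2) + (al q.2 - uu q.2) + ‖p.1 - q.1‖

theorem uu_nonneg (t : ℝ) : 0 ≤ uu t := Real.sqrt_nonneg _

theorem sinh_le_mul_cosh {x : ℝ} (hx : 0 ≤ x) : Real.sinh x ≤ x * Real.cosh x := by
  refine hasSum_le (fun n => ?_) (Real.hasSum_sinh x) ((Real.hasSum_cosh x).mul_left x)
  have h1 : x * (x ^ (2 * n) / ((2 * n).factorial : ℝ)) = x ^ (2 * n + 1) / ((2 * n).factorial : ℝ) := by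
    ring
  rw [h1]
  apply div_le_div_of_nonneg_left (by positivity) (by positivity)
  exact_mod_cast Nat.factorial_le (by omega)

section heights

variable {t : ℝ} (h0 : 0 < t) (h1 : t ≤ 1)
include h0 h1

theorem uu_sq : uu t ^ 2 = 1 - t ^ 2 := by
  unfold uu
  rw [Real.sq_sqrt]
  nlinarith

theorem uu_lt_one : uu t < 1 := by
  have h2 := uu_sq h0 h1
  have h3 : uu t ^ 2 < 1 := by rw [h2]; nlinarith
  nlinarith [uu_nonneg t]

theorem uu_mem : uu t ∈ Ioo (-1 : ℝ) 1 := ⟨by linarith [uu_nonneg t], uu_lt_one h0 h1⟩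

theorem sqrt_one_sub_uu : √(1 - uu t ^ 2) = t := by
  rw [uu_sq h0 h1]
  have : 1 - (1 - t ^ 2) = t ^ 2 := by ring
  rw [this, Real.sqrt_sq h0.le]

theorem cosh_al : Real.cosh (al t) = 1 / t := by
  have := Real.cosh_artanh (uu_mem h0 h1)
  rw [sqrt_one_sub_uu h0 h1] at this
  exact this

theorem sinh_al : Real.sinh (al t) = uu t / t := by
  have := Real.sinh_artanh (uu_mem h0 h1)
  rw [sqrt_one_sub_uu h0 h1] at this
  exact this

omit h0 h1 in
theorem al_nonneg : 0 ≤ al t := Real.artanh_nonneg (uu_nonneg t)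

theorem al_eq_arcosh : al t = Real.arcosh (1 / t) := by
  rw [← cosh_al h0 h1, Real.arcosh_cosh (al_nonneg (t := t))]

theorem uu_le_al : uu t ≤ al t := by
  have h2 := sinh_le_mul_cosh (al_nonneg (t := t))
  rw [sinh_al h0 h1, cosh_al h0 h1, mul_one_div, div_le_div_iff_of_pos_right h0] at h2
  exact h2

end heights

theorem uu_one : uu 1 = 0 := by simp [uu]

theorem al_one : al 1 = 0 := by simp [al]

theorem uu_pos {t : ℝ} (h0 : 0 < t) (h1 : t < 1) : 0 < uu t := by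
  unfold uu
  apply Real.sqrt_pos.2
  nlinarith

/-- the two formulas agree at the transition -/
theorem cosh_add_al {s t : ℝ} (hs0 : 0 < s) (hs1 : s ≤ 1) (ht0 : 0 < t) (ht1 : t ≤ 1) :
    Real.cosh (al s + al t) = ((uu s + uu t) ^ 2 + s ^ 2 + t ^ 2) / (2 * s * t) := by
  rw [Real.cosh_add, cosh_al hs0 hs1, cosh_al ht0 ht1, sinh_al hs0 hs1, sinh_al ht0 ht1]
  have h1 := uu_sq hs0 hs1
  have h2 := uu_sq ht0 ht1
  have e : (uu s + uu t) ^ 2 + s ^ 2 + t ^ 2 = 2 + 2 * uu s * uu t := by linear_combination h1 + h2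
  rw [e]
  field_simp

theorem sinh_add_al {s t : ℝ} (hs0 : 0 < s) (hs1 : s ≤ 1) (ht0 : 0 < t) (ht1 : t ≤ 1) :
    Real.sinh (al s + al t) = (uu s + uu t) / (s * t) := by
  rw [Real.sinh_add, cosh_al hs0 hs1, cosh_al ht0 ht1, sinh_al hs0 hs1, sinh_al ht0 ht1]
  field_simp

/-- A point of the truncated space -/
def Ok (q : ℂ × ℝ) : Prop := 0 < q.2 ∧ q.2 ≤ 1

section dist

variable {p q : ℂ × ℝ} (hp : Ok p) (hq : Ok q)
include hp hq

theorem one_le_hC : 1 ≤ hC p q := by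
  have h1 := hp.1
  have h2 := hq.1
  unfold hC
  rw [le_div_iff₀ (by positivity)]
  nlinarith [sq_nonneg (p.2 - q.2), sq_nonneg ‖p.1 - q.1‖]

theorem hC_sub_one : ‖p.1 - q.1‖ ^ 2 + (p.2 - q.2) ^ 2 = 2 * p.2 * q.2 * (hC p q - 1) := by
  have h1 := hp.1
  have h2 := hq.1
  unfold hC
  field_simp
  ring

theorem dT_of_le (h : ‖p.1 - q.1‖ ≤ uu p.2 + uu q.2) : Real.cosh (dT p q) = hC p q := by
  rw [dT, if_pos h, Real.cosh_arcosh (one_le_hC hp hq)]

omit hp hq in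
theorem dT_of_lt (h : uu p.2 + uu q.2 < ‖p.1 - q.1‖) :
    dT p q = (al p.2 - uu p.2) + (al q.2 - uu q.2) + ‖p.1 - q.1‖ := by
  rw [dT, if_neg (not_le.2 h)]

theorem dT_nonneg : 0 ≤ dT p q := by
  unfold dT
  split_ifs with h
  · exact Real.arcosh_nonneg (one_le_hC hp hq)
  · have h1 := uu_le_al hp.1 hp.2
    have h2 := uu_le_al hq.1 hq.2
    have h3 := norm_nonneg (p.1 - q.1)
    linarith

/-- The path metric is at least the hyperbolic metric. -/
theorem hC_le : hC p q ≤ Real.cosh (dT p q) := by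
  rcases le_or_gt ‖p.1 - q.1‖ (uu p.2 + uu q.2) with h | h
  · rw [dT_of_le hp hq h]
  · rw [dT_of_lt h]
    set r := ‖p.1 - q.1‖ with hr
    set ρ := r - (uu p.2 + uu q.2) with hρ
    have hρ0 : 0 ≤ ρ := by rw [hρ]; linarith
    have e : (al p.2 - uu p.2) + (al q.2 - uu q.2) + r = (al p.2 + al q.2) + ρ := by rw [hρ]; ring
    have h1 := hp.1
    have h2 := hq.1
    rw [e, Real.cosh_add, cosh_add_al hp.1 hp.2 hq.1 hq.2, sinh_add_al hp.1 hp.2 hq.1 hq.2]
    have hc : 1 + ρ ^ 2 / 2 ≤ Real.cosh ρ := by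
      have := cosh_sqrt_sub (x := ρ ^ 2) (y := 0) le_rfl (sq_nonneg ρ)
      rw [Real.sqrt_sq_eq_abs, Real.cosh_abs, Real.sqrt_zero, Real.cosh_zero] at this
      linarith
    have hs : ρ ≤ Real.sinh ρ := Real.self_le_sinh_iff.2 hρ0
    have hu := uu_nonneg p.2
    have hv := uu_nonneg q.2
    have hS := uu_sq hp.1 hp.2
    have hT := uu_sq hq.1 hq.2
    have k1 : ((uu p.2 + uu q.2) ^ 2 + p.2 ^ 2 + q.2 ^ 2) / (2 * p.2 * q.2) * (1 + ρ ^ 2 / 2) ≤
        ((uu p.2 + uu q.2) ^ 2 + p.2 ^ 2 + q.2 ^ 2) / (2 * p.2 * q.2) * Real.cosh ρ :=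
      mul_le_mul_of_nonneg_left hc (by positivity)
    have k2 : (uu p.2 + uu q.2) / (p.2 * q.2) * ρ ≤ (uu p.2 + uu q.2) / (p.2 * q.2) * Real.sinh ρ :=
      mul_le_mul_of_nonneg_left hs (by positivity)
    refine le_trans ?_ (add_le_add k1 k2)
    have e2 : (uu p.2 + uu q.2) ^ 2 + p.2 ^ 2 + q.2 ^ 2 = 2 + 2 * uu p.2 * uu q.2 := by
      linear_combination hS + hT
    have e3 : r = ρ + (uu p.2 + uu q.2) := by rw [hρ]; ring
    have e4 : hC p q = (ρ ^ 2 + 2 * ρ * (uu p.2 + uu q.2) + (2 + 2 * uu p.2 * uu q.2)) /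
        (2 * p.2 * q.2) := by
      rw [hC, ← hr, ← e2, e3]; ring
    rw [e4, e2]
    have e5 : (2 + 2 * uu p.2 * uu q.2) / (2 * p.2 * q.2) * (1 + ρ ^ 2 / 2) +
        (uu p.2 + uu q.2) / (p.2 * q.2) * ρ =
        ((2 + 2 * uu p.2 * uu q.2) * (1 + ρ ^ 2 / 2) + 2 * (uu p.2 + uu q.2) * ρ) /
        (2 * p.2 * q.2) := by
      field_simp
    rw [e5]
    apply div_le_div_of_nonneg_right _ (by positivity)
    nlinarith [mul_nonneg (mul_nonneg hu hv) (sq_nonneg ρ)]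

theorem eq_of_dT (h : dT p q = 0) : p = q := by
  have h1 := hC_le hp hq
  rw [h, Real.cosh_zero] at h1
  have h2 := hC_sub_one hp hq
  have h3 : hC p q = 1 := le_antisymm h1 (one_le_hC hp hq)
  rw [h3, sub_self, mul_zero] at h2
  have h4 : ‖p.1 - q.1‖ ^ 2 = 0 := by nlinarith [sq_nonneg ‖p.1 - q.1‖, sq_nonneg (p.2 - q.2)]
  have h5 : (p.2 - q.2) ^ 2 = 0 := by nlinarith [sq_nonneg ‖p.1 - q.1‖, sq_nonneg (p.2 - q.2)]
  have h6 : ‖p.1 - q.1‖ = 0 := by simpa using h4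
  have h7 : p.2 - q.2 = 0 := by simpa using h5
  exact Prod.ext (sub_eq_zero.1 (norm_eq_zero.1 h6)) (sub_eq_zero.1 h7)

end dist

theorem hC_comm (p q : ℂ × ℝ) : hC p q = hC q p := by
  unfold hC
  rw [norm_sub_rev]
  congr 1 <;> ring

theorem dT_comm (p q : ℂ × ℝ) : dT p q = dT q p := by
  unfold dT
  rw [norm_sub_rev p.1 q.1, hC_comm, add_comm (uu p.2)]
  split_ifs <;> ring

theorem dT_self (p : ℂ × ℝ) (hp : Ok p) : dT p p = 0 := by
  have h : ‖p.1 - p.1‖ ≤ uu p.2 + uu p.2 := by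
    rw [sub_self, norm_zero]
    linarith [uu_nonneg p.2]
  rw [dT, if_pos h]
  have : hC p p = 1 := by
    unfold hC
    rw [sub_self, norm_zero]
    have := hp.1
    field_simp
    ring
  rw [this, Real.arcosh_zero]

/-- real inner product on the plane -/
def ip (X w : ℂ) : ℝ := X.re * w.re + X.im * w.im

theorem sq_norm_sub (X w : ℂ) (f : ℝ) :
    ‖X - (f : ℂ) * w‖ ^ 2 = ‖X‖ ^ 2 - 2 * f * ip X w + f ^ 2 * ‖w‖ ^ 2 := by
  rw [Complex.sq_norm, Complex.sq_norm, Complex.sq_norm, Complex.normSq_apply, Complex.normSq_apply,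
    Complex.normSq_apply]
  simp only [Complex.sub_re, Complex.sub_im, Complex.mul_re, Complex.mul_im, Complex.ofReal_re,
    Complex.ofReal_im, ip]
  ring

theorem ip_sq_le (X w : ℂ) : ip X w ^ 2 ≤ ‖X‖ ^ 2 * ‖w‖ ^ 2 := by
  rw [Complex.sq_norm, Complex.sq_norm, Complex.normSq_apply, Complex.normSq_apply]
  simp only [ip]
  nlinarith [sq_nonneg (X.re * w.im - X.im * w.re)]

/-- denominators of arcs -/
noncomputable def Nn (c h : ℝ) : ℝ := Real.cosh h + c * Real.sinh h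

theorem abs_sinh_lt_cosh (h : ℝ) : |Real.sinh h| < Real.cosh h := by
  rw [abs_lt]
  constructor
  · have := Real.exp_pos h
    rw [Real.cosh_eq, Real.sinh_eq]
    linarith
  · exact Real.sinh_lt_cosh h

theorem Nn_pos {c : ℝ} (hc : |c| ≤ 1) (h : ℝ) : 0 < Nn c h := by
  unfold Nn
  have h1 := abs_sinh_lt_cosh h
  have h2 : |c * Real.sinh h| < Real.cosh h := by
    rw [abs_mul]
    calc |c| * |Real.sinh h| ≤ 1 * |Real.sinh h| := by gcongr
      _ < Real.cosh h := by rw [one_mul]; exact h1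
  linarith [(abs_lt.1 h2).1]

/-- The unit speed hyperbolic geodesic through `(z, t)` with initial velocity `(t w, - t c)`. -/
noncomputable def arc (z : ℂ) (t c : ℝ) (w : ℂ) (h : ℝ) : ℂ × ℝ :=
  (z + ((t * Real.sinh h / Nn c h : ℝ) : ℂ) * w, t / Nn c h)

theorem Nn_zero (c : ℝ) : Nn c 0 = 1 := by simp [Nn]

theorem arc_zero (z : ℂ) (t c : ℝ) (w : ℂ) : arc z t c w 0 = (z, t) := by
  simp [arc, Nn_zero]

/-- Recentering of arcs. -/
theorem arc_add (z : ℂ) (t c : ℝ) (w : ℂ) (hc : |c| ≤ 1) (s h : ℝ) :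
    arc z t c w (s + h) = arc (arc z t c w s).1 (t / Nn c s)
      ((Real.sinh s + c * Real.cosh s) / Nn c s) (((1 / Nn c s : ℝ) : ℂ) * w) h := by
  have h1 := Nn_pos hc s
  have h2 := Nn_pos hc (s + h)
  have e1 : Nn ((Real.sinh s + c * Real.cosh s) / Nn c s) h = Nn c (s + h) / Nn c s := by
    have hne := h1.ne'
    rw [eq_div_iff hne]
    have e0 : Nn ((Real.sinh s + c * Real.cosh s) / Nn c s) h * Nn c s =
        Real.cosh h * Nn c s + (Real.sinh s + c * Real.cosh s) * Real.sinh h := by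
      conv_lhs => rw [Nn]
      field_simp
    rw [e0]
    unfold Nn
    rw [Real.cosh_add, Real.sinh_add]
    ring
  unfold arc
  rw [e1]
  have e2 : t / Nn c s / (Nn c (s + h) / Nn c s) = t / Nn c (s + h) := by
    field_simp
  rw [e2]
  refine Prod.ext ?_ rfl
  simp only
  rw [add_assoc, ← mul_assoc, ← Complex.ofReal_mul, ← add_mul, ← Complex.ofReal_add]
  congr 3
  have e3 : t * Real.sinh (s + h) / Nn c (s + h) =
      t * (Real.sinh s * Nn c (s + h) + Real.sinh h) / (Nn c s * Nn c (s + h)) := by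
    rw [div_eq_div_iff h2.ne' (by positivity)]
    have e4 : Real.sinh (s + h) * Nn c s = Real.sinh s * Nn c (s + h) + Real.sinh h := by
      unfold Nn
      rw [Real.sinh_add, Real.cosh_add]
      have := Real.cosh_sq s
      linear_combination (Real.sinh h) * this
    rw [← e4]
    ring
  rw [e3]
  field_simp

theorem recenter_sq (c s : ℝ) (w : ℂ) (hc : |c| ≤ 1) (hw : c ^ 2 + ‖w‖ ^ 2 = 1) :
    ((Real.sinh s + c * Real.cosh s) / Nn c s) ^ 2 + ‖((1 / Nn c s : ℝ) : ℂ) * w‖ ^ 2 = 1 := by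
  have h1 := Nn_pos hc s
  rw [norm_mul, mul_pow, Complex.norm_real, Real.norm_eq_abs, sq_abs]
  have e : ‖w‖ ^ 2 = 1 - c ^ 2 := by linarith
  rw [e, div_pow, div_pow, one_pow]
  have e2 : (Real.sinh s + c * Real.cosh s) ^ 2 + (1 - c ^ 2) = Nn c s ^ 2 := by
    unfold Nn
    have := Real.cosh_sq s
    linear_combination (c ^ 2 - 1) * this
  rw [div_add' _ _ _ (by positivity), ← e2]
  have e3 : (Real.sinh s + c * Real.cosh s) ^ 2 + (1 - c ^ 2) ≠ 0 := by rw [e2]; positivity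
  field_simp

end Pool.Agent.Work.MP_f0c219_gt.TruncHyp
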