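import Pool.Agent.Work.MP_f0c219_gt_h31.D2

/-!
# Block D, part 3: second order lower supports of the squared distance, easy cases
-/

open Set Topology Filter

namespace Pool.Agent.Work.MP_f0c219_gt.TruncHyp

/-- The squared distance from `p` is 2-convex at `0` along `P`, in the sense of lower supports. -/
def Supp (p : ℂ × ℝ) (P : ℝ → ℂ × ℝ) : Prop :=
  ∃ m : ℝ, ∀ ε : ℝ, 0 < ε → ∀ᶠ h in 𝓝 (0 : ℝ),
    dT p (P 0) ^ 2 + m * h + (1 - ε) * h ^ 2 ≤ dT p (P h) ^ 2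

theorem supp_of_hC {p : ℂ × ℝ} {P : ℝ → ℂ × ℝ} (hp : Ok p) (h0 : Ok (P 0))
    (hle : ‖p.1 - (P 0).1‖ ≤ uu p.2 + uu (P 0).2) {κ K δ : ℝ} (hK : 0 ≤ K) (hδ : 0 < δ)
    (hκ : κ ^ 2 ≤ hC p (P 0) ^ 2 - 1)
    (hP : ∀ h, |h| < δ → Ok (P h) ∧
      hC p (P 0) + κ * h + hC p (P 0) / 2 * h ^ 2 - K * |h| ^ 3 ≤ hC p (P h)) : Supp p P := by
  have ha := dT_nonneg hp h0
  have hc := dT_of_le hp h0 hle
  have hs : |κ| ≤ Real.sinh (dT p (P 0)) := by
    apply abs_le_of_sq_le_sq _ (Real.sinh_nonneg_iff.2 ha)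
    rw [Real.sinh_sq, hc]
    exact hκ
  refine support_of_cosh ha hs hK hδ (G := fun h => dT p (P h)) (fun h hh => ?_)
  obtain ⟨h1, h2⟩ := hP h hh
  refine ⟨dT_nonneg hp h1, ?_⟩
  rw [hc]
  exact h2.trans (hC_le hp h1)

theorem hC_arc {p : ℂ × ℝ} (hp : 0 < p.2) (z : ℂ) {t c : ℝ} {w : ℂ} (ht : 0 < t)
    (hw : c ^ 2 + ‖w‖ ^ 2 = 1) (h : ℝ) :
    hC p (arc z t c w h) = (‖p.1 - z‖ ^ 2 + p.2 ^ 2 + t ^ 2) / (2 * p.2 * t) * Real.cosh h +
      (c * (‖p.1 - z‖ ^ 2 + p.2 ^ 2) - 2 * t * ip (p.1 - z) w - t ^ 2 * c) / (2 * p.2 * t) *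
        Real.sinh h := by
  have hc : |c| ≤ 1 := by
    apply abs_le_of_sq_le_sq _ zero_le_one
    nlinarith [sq_nonneg ‖w‖]
  have hN := Nn_pos hc h
  have hw' : ‖w‖ ^ 2 = 1 - c ^ 2 := by linarith
  unfold hC arc
  simp only
  have e : p.1 - (z + ((t * Real.sinh h / Nn c h : ℝ) : ℂ) * w) =
      (p.1 - z) - ((t * Real.sinh h / Nn c h : ℝ) : ℂ) * w := by ring
  rw [e, sq_norm_sub, hw']
  have hN2 : Real.cosh h = Nn c h - c * Real.sinh h := by unfold Nn; ring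
  have hcs : Nn c h ^ 2 - 2 * c * Real.sinh h * Nn c h - (1 - c ^ 2) * Real.sinh h ^ 2 = 1 := by
    unfold Nn
    have := Real.cosh_sq h
    linear_combination this
  rw [hN2]
  have e2 : (‖p.1 - z‖ ^ 2 - 2 * (t * Real.sinh h / Nn c h) * ip (p.1 - z) w +
      (t * Real.sinh h / Nn c h) ^ 2 * (1 - c ^ 2) + p.2 ^ 2 + (t / Nn c h) ^ 2) /
      (2 * p.2 * (t / Nn c h)) = ((‖p.1 - z‖ ^ 2 + p.2 ^ 2) * Nn c h ^ 2 -
      2 * t * Real.sinh h * ip (p.1 - z) w * Nn c h +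
      t ^ 2 * (Real.sinh h ^ 2 * (1 - c ^ 2) + 1)) / (2 * p.2 * t * Nn c h) := by
    field_simp
    ring
  rw [e2, div_eq_iff (by positivity)]
  have e3 : Real.sinh h ^ 2 * (1 - c ^ 2) + 1 = Nn c h ^ 2 - 2 * c * Real.sinh h * Nn c h := by
    linarith
  rw [e3]
  field_simp
  ring

theorem arc_kappa {p : ℂ × ℝ} (hp : 0 < p.2) (z : ℂ) {t c : ℝ} {w : ℂ} (ht : 0 < t)
    (hw : c ^ 2 + ‖w‖ ^ 2 = 1) :
    ((c * (‖p.1 - z‖ ^ 2 + p.2 ^ 2) - 2 * t * ip (p.1 - z) w - t ^ 2 * c) / (2 * p.2 * t)) ^ 2 ≤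
      ((‖p.1 - z‖ ^ 2 + p.2 ^ 2 + t ^ 2) / (2 * p.2 * t)) ^ 2 - 1 := by
  have hw' : ‖w‖ ^ 2 = 1 - c ^ 2 := by linarith
  have hip := ip_sq_le (p.1 - z) w
  rw [hw'] at hip
  rw [div_pow, div_pow, le_sub_iff_add_le, div_add' _ _ _ (by positivity),
    div_le_div_iff_of_pos_right (by positivity)]
  set R := ‖p.1 - z‖ ^ 2 with hR
  set k := ip (p.1 - z) w with hk
  have hR0 : 0 ≤ R := by rw [hR]; positivity
  set m := R + p.2 ^ 2 - t ^ 2 with hm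
  -- (c m - 2 t k)² ≤ m² + 4 t² R
  have e1 : c * (R + p.2 ^ 2) - 2 * t * k - t ^ 2 * c = c * m - 2 * t * k := by rw [hm]; ring
  have e2 : (R + p.2 ^ 2 + t ^ 2) ^ 2 = m ^ 2 + 4 * t ^ 2 * R + 1 * (2 * p.2 * t) ^ 2 := by
    rw [hm]; ring
  rw [e1, e2]
  have hc1 : 0 ≤ 1 - c ^ 2 := by rw [← hw']; positivity
  -- Cauchy-Schwarz
  have key : (c * m - 2 * t * k) ^ 2 ≤ m ^ 2 + 4 * t ^ 2 * R := by
    rcases eq_or_lt_of_le hc1 with h0 | h0
    · have hk0 : k = 0 := by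
        rw [← h0, mul_zero] at hip
        nlinarith [sq_nonneg k]
      rw [hk0]
      nlinarith [mul_nonneg (sq_nonneg t) hR0, sq_nonneg m]
    · have h1 : (1 - c ^ 2) * ((c * m - 2 * t * k) ^ 2) ≤ (1 - c ^ 2) * (m ^ 2 + 4 * t ^ 2 * R) := by
        have h2 : 0 ≤ 4 * t ^ 2 * (R * (1 - c ^ 2) - k ^ 2) := by
          apply mul_nonneg (by positivity); linarith
        nlinarith [sq_nonneg ((1 - c ^ 2) * m + c * (2 * t * k))]
      exact le_of_mul_le_mul_left h1 h0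
  linarith

theorem cosh_sinh_lower {C0 C1 h : ℝ} (hC0 : 0 ≤ C0) (hh : |h| ≤ 1) :
    C0 + C1 * h + C0 / 2 * h ^ 2 - (C0 + |C1|) * |h| ^ 3 ≤ C0 * Real.cosh h + C1 * Real.sinh h := by
  have h1 := (abs_le.1 (abs_cosh_sub hh)).1
  have h2 : C0 * (1 + h ^ 2 / 2 - 2 / 9 * |h| ^ 3) ≤ C0 * Real.cosh h :=
    mul_le_mul_of_nonneg_left (by linarith) hC0
  have h3 : |C1 * (Real.sinh h - h)| ≤ |C1| * (2 / 9 * |h| ^ 3) := by
    rw [abs_mul]; gcongr; exact abs_sinh_sub hh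
  have h4 := (abs_le.1 h3).1
  have h5 : 0 ≤ C0 * |h| ^ 3 := by positivity
  have h6 : 0 ≤ |C1| * |h| ^ 3 := by positivity
  nlinarith

/-- Arc-like points, non-crossing case. -/
theorem supp_arc_of_le {p : ℂ × ℝ} (hp : Ok p) (z : ℂ) {t c : ℝ} {w : ℂ} (ht : 0 < t) (ht1 : t < 1)
    (hw : c ^ 2 + ‖w‖ ^ 2 = 1) (hle : ‖p.1 - z‖ ≤ uu p.2 + uu t) : Supp p (arc z t c w) := by
  have hc : |c| ≤ 1 := by
    apply abs_le_of_sq_le_sq _ zero_le_one
    nlinarith [sq_nonneg ‖w‖]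
  have hp0 := hp.1
  have hC0 : hC p (arc z t c w 0) = (‖p.1 - z‖ ^ 2 + p.2 ^ 2 + t ^ 2) / (2 * p.2 * t) := by
    rw [hC_arc hp.1 z ht hw]; simp
  -- stays inside
  have hcont : ContinuousAt (fun h => t / Nn c h) 0 := by
    have h1 := Nn_pos hc 0
    unfold Nn at *
    apply ContinuousAt.div <;> first | fun_prop | exact h1.ne'
  have hin : ∀ᶠ h in 𝓝 (0 : ℝ), t / Nn c h < 1 := by
    apply hcont.eventually_lt continuousAt_const
    simp [Nn_zero, ht1]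
  obtain ⟨δ, hδ, hball⟩ := Metric.eventually_nhds_iff.1 hin
  refine supp_of_hC hp (by rw [arc_zero]; exact ⟨ht, ht1.le⟩) (by rw [arc_zero]; exact hle)
    (κ := (c * (‖p.1 - z‖ ^ 2 + p.2 ^ 2) - 2 * t * ip (p.1 - z) w - t ^ 2 * c) / (2 * p.2 * t))
    (K := hC p (arc z t c w 0) +
      |(c * (‖p.1 - z‖ ^ 2 + p.2 ^ 2) - 2 * t * ip (p.1 - z) w - t ^ 2 * c) / (2 * p.2 * t)|)
    (δ := min δ 1) ?_ (by positivity) ?_ ?_
  · rw [hC0]; positivity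
  · rw [hC0]; exact arc_kappa hp.1 z ht hw
  · intro h hh
    have hh1 : |h| < δ := lt_of_lt_of_le hh (min_le_left _ _)
    have hh2 : |h| ≤ 1 := (lt_of_lt_of_le hh (min_le_right _ _)).le
    refine ⟨⟨div_pos ht (Nn_pos hc h), (hball (by simpa using hh1 : dist h 0 < δ)).le⟩, ?_⟩
    rw [hC0, hC_arc hp.1 z ht hw h]
    exact cosh_sinh_lower (by positivity) hh2

/-- A path which near `0` is horizontal, or an arc touching the horosphere, on each side. -/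
def Top (z w : ℂ) (P : ℝ → ℂ × ℝ) : Prop :=
  ∀ᶠ h in 𝓝 (0 : ℝ), P h = (z + (h : ℂ) * w, 1) ∨ P h = arc z 1 0 w h

theorem Nn_zero_left (h : ℝ) : Nn 0 h = Real.cosh h := by simp [Nn]

theorem arc_top (z w : ℂ) (h : ℝ) :
    arc z 1 0 w h = (z + ((Real.tanh h : ℝ) : ℂ) * w, 1 / Real.cosh h) := by
  simp only [arc, Nn_zero_left, one_mul, Real.tanh_eq_sinh_div_cosh]

theorem one_div_cosh_le (h : ℝ) : 1 / Real.cosh h ≤ 1 := by
  rw [div_le_one (Real.cosh_pos h)]; exact Real.one_le_cosh h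

/-- Top-like points, non-crossing case. -/
theorem supp_top_of_le {p : ℂ × ℝ} (hp : Ok p) {z w : ℂ} {P : ℝ → ℂ × ℝ} (hw : ‖w‖ = 1)
    (h0 : P 0 = (z, 1)) (hP : Top z w P) (hle : ‖p.1 - z‖ ≤ uu p.2) : Supp p P := by
  have hp0 := hp.1
  have hw2 : (0 : ℝ) ^ 2 + ‖w‖ ^ 2 = 1 := by rw [hw]; norm_num
  have hC0 : hC p (P 0) = (‖p.1 - z‖ ^ 2 + p.2 ^ 2 + 1) / (2 * p.2) := by
    rw [h0, hC]; simp
  set X := p.1 - z with hX
  obtain ⟨δ, hδ, hball⟩ := Metric.eventually_nhds_iff.1 hP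
  have hM : ‖X‖ ^ 2 + p.2 ^ 2 + 1 ≤ 2 := by
    have h1 := uu_sq hp.1 hp.2
    have h2 : ‖X‖ ^ 2 ≤ uu p.2 ^ 2 := pow_le_pow_left₀ (norm_nonneg _) hle 2
    linarith
  refine supp_of_hC hp (by rw [h0]; exact ⟨one_pos, le_rfl⟩)
    (by rw [h0]; simpa [uu_one] using hle)
    (κ := - (ip X w) / p.2) (K := hC p (P 0) + |- (ip X w) / p.2|)
    (δ := min δ 1) ?_ (by positivity) ?_ ?_
  · rw [hC0]; positivity
  · rw [hC0]
    have h1 := ip_sq_le X w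
    rw [hw, one_pow, mul_one] at h1
    have e1 : ((‖X‖ ^ 2 + p.2 ^ 2 + 1) / (2 * p.2)) ^ 2 - 1 =
        ((‖X‖ ^ 2 + p.2 ^ 2 - 1) ^ 2 + 4 * ‖X‖ ^ 2) / (2 * p.2) ^ 2 := by
      field_simp; ring
    have e2 : (-(ip X w) / p.2) ^ 2 = (4 * ip X w ^ 2) / (2 * p.2) ^ 2 := by
      field_simp; ring
    rw [e1, e2, div_le_div_iff_of_pos_right (by positivity)]
    nlinarith [sq_nonneg (‖X‖ ^ 2 + p.2 ^ 2 - 1)]
  · intro h hh
    have hh1 : |h| < δ := lt_of_lt_of_le hh (min_le_left _ _)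
    have hh2 : |h| ≤ 1 := (lt_of_lt_of_le hh (min_le_right _ _)).le
    rcases hball (by simpa using hh1 : dist h 0 < δ) with h1 | h1
    · rw [h1]
      refine ⟨⟨one_pos, le_rfl⟩, ?_⟩
      have e : hC p (z + (h : ℂ) * w, 1) =
          (‖X‖ ^ 2 - 2 * h * ip X w + h ^ 2 + p.2 ^ 2 + 1) / (2 * p.2) := by
        have e1 : p.1 - (z + (h : ℂ) * w) = X - (h : ℂ) * w := by rw [hX]; ring
        unfold hC
        simp only
        rw [e1, sq_norm_sub, hw]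
        simp
      rw [hC0, e]
      have h3 : 0 ≤ ((‖X‖ ^ 2 + p.2 ^ 2 + 1) / (2 * p.2) + |-(ip X w) / p.2|) * |h| ^ 3 := by
        positivity
      have h4 : (‖X‖ ^ 2 + p.2 ^ 2 + 1) / (2 * p.2) + -(ip X w) / p.2 * h +
          (‖X‖ ^ 2 + p.2 ^ 2 + 1) / (2 * p.2) / 2 * h ^ 2 =
          (‖X‖ ^ 2 + p.2 ^ 2 + 1 - 2 * h * ip X w + (‖X‖ ^ 2 + p.2 ^ 2 + 1) / 2 * h ^ 2) /
          (2 * p.2) := by
        field_simp
        ring
      have h5 : (‖X‖ ^ 2 + p.2 ^ 2 + 1 - 2 * h * ip X w + (‖X‖ ^ 2 + p.2 ^ 2 + 1) / 2 * h ^ 2) /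
          (2 * p.2) ≤ (‖X‖ ^ 2 - 2 * h * ip X w + h ^ 2 + p.2 ^ 2 + 1) / (2 * p.2) := by
        apply div_le_div_of_nonneg_right _ (by positivity)
        nlinarith [sq_nonneg h]
      linarith
    · rw [h1]
      refine ⟨⟨?_, ?_⟩, ?_⟩
      · rw [arc_top]; exact div_pos one_pos (Real.cosh_pos h)
      · rw [arc_top]; exact one_div_cosh_le h
      · rw [hC_arc hp.1 z one_pos hw2 h, hC0]
        have e1 : (‖p.1 - z‖ ^ 2 + p.2 ^ 2 + 1 ^ 2) / (2 * p.2 * 1) =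
            (‖X‖ ^ 2 + p.2 ^ 2 + 1) / (2 * p.2) := by rw [hX]; ring
        have e2 : (0 * (‖p.1 - z‖ ^ 2 + p.2 ^ 2) - 2 * 1 * ip (p.1 - z) w - 1 ^ 2 * 0) /
            (2 * p.2 * 1) = -(ip X w) / p.2 := by rw [← hX]; field_simp; ring
        rw [e1, e2]
        exact cosh_sinh_lower (by positivity) hh2

/-- Top-like points, crossing case. -/
theorem supp_top_of_lt {p : ℂ × ℝ} (hp : Ok p) {z w : ℂ} {P : ℝ → ℂ × ℝ} (hw : ‖w‖ = 1)
    (h0 : P 0 = (z, 1)) (hP : Top z w P) (hlt : uu p.2 < ‖p.1 - z‖) : Supp p P := by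
  set X := p.1 - z with hX
  set b := al p.2 - uu p.2 with hb
  have hb0 : 0 ≤ b := by rw [hb]; linarith [uu_le_al hp.1 hp.2]
  have hr0 : 0 < ‖X‖ := lt_of_le_of_lt (uu_nonneg _) hlt
  have hD0 : dT p (P 0) = b + ‖X‖ := by
    rw [h0, dT_of_lt (by simpa [uu_one] using hlt)]
    simp [uu_one, al_one, hb, hX]
  -- the lower bound with `f = h` or `f = tanh h`
  set μ := ip X w / ‖X‖ with hμ
  have hμ1 : |μ| ≤ 1 := by
    rw [hμ, abs_div, abs_of_pos hr0, div_le_one hr0]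
    apply abs_le_of_sq_le_sq _ hr0.le
    have := ip_sq_le X w
    rwa [hw, one_pow, mul_one] at this
  have hlow : ∀ f : ℝ, (b + ‖X‖) ^ 2 - 2 * (b + ‖X‖) * μ * f + f ^ 2 ≤
      (b + ‖X - (f : ℂ) * w‖) ^ 2 := by
    intro f
    have h1 := sq_norm_sub X w f
    rw [hw, one_pow, mul_one] at h1
    have hip : ip X w = μ * ‖X‖ := by rw [hμ]; field_simp
    have h2 : ‖X‖ - f * μ ≤ ‖X - (f : ℂ) * w‖ := by
      by_contra hcon
      push Not at hcon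
      have h3 : ‖X - (f : ℂ) * w‖ ^ 2 < (‖X‖ - f * μ) ^ 2 :=
        pow_lt_pow_left₀ hcon (norm_nonneg _) (by norm_num)
      rw [h1, hip] at h3
      have h4 : f ^ 2 * μ ^ 2 ≤ f ^ 2 := by
        have : μ ^ 2 ≤ 1 := by rw [← sq_abs]; nlinarith [abs_nonneg μ]
        nlinarith [sq_nonneg f]
      nlinarith
    rw [hip] at h1
    have h5 : b * (‖X‖ - f * μ) ≤ b * ‖X - (f : ℂ) * w‖ := mul_le_mul_of_nonneg_left h2 hb0
    nlinarith
  -- near `0` we stay in the crossing region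
  have hcross : ∀ᶠ h : ℝ in 𝓝 (0 : ℝ), uu p.2 < ‖X - (h : ℂ) * w‖ ∧
      uu p.2 + uu (1 / Real.cosh h) < ‖X - ((Real.tanh h : ℝ) : ℂ) * w‖ := by
    have c1 : ContinuousAt (fun h : ℝ => ‖X - (h : ℂ) * w‖) 0 := by fun_prop
    have c2 : ContinuousAt (fun h : ℝ => uu p.2 + uu (1 / Real.cosh h)) 0 := by
      unfold uu
      have : ∀ x : ℝ, Real.cosh x ≠ 0 := fun x => (Real.cosh_pos x).ne'
      fun_prop (disch := simp_all)
    have c3 : ContinuousAt (fun h : ℝ => ‖X - ((Real.tanh h : ℝ) : ℂ) * w‖) 0 := by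
      have : (fun h : ℝ => ‖X - ((Real.tanh h : ℝ) : ℂ) * w‖) =
          fun h : ℝ => ‖X - ((Real.sinh h / Real.cosh h : ℝ) : ℂ) * w‖ := by
        funext h; rw [Real.tanh_eq_sinh_div_cosh]
      rw [this]
      have : ∀ x : ℝ, Real.cosh x ≠ 0 := fun x => (Real.cosh_pos x).ne'
      have c4 : Continuous (fun h : ℝ => Real.sinh h / Real.cosh h) :=
        Real.continuous_sinh.div Real.continuous_cosh this
      have c5 : Continuous (fun h : ℝ => ((Real.sinh h / Real.cosh h : ℝ) : ℂ)) :=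
        Complex.continuous_ofReal.comp c4
      exact (continuous_const.sub (c5.mul continuous_const)).norm.continuousAt
    refine (continuousAt_const.eventually_lt c1 (by simpa using hlt)).and
      (c2.eventually_lt c3 ?_)
    simpa [uu_one] using hlt
  refine ⟨-(2 * (b + ‖X‖) * μ), fun ε hε => ?_⟩
  set D := b + ‖X‖ with hD
  have hDpos : 0 < D := by rw [hD]; linarith
  have hmin : 0 < min 1 (ε / (2 * D + 2)) := by positivity
  filter_upwards [hP, hcross, Metric.ball_mem_nhds (0 : ℝ) hmin] with h h1 h2 hh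
  rw [mem_ball_zero_iff, Real.norm_eq_abs] at hh
  have hh2 : |h| ≤ 1 := (lt_of_lt_of_le hh (min_le_left _ _)).le
  have hh3 : |h| < ε / (2 * D + 2) := lt_of_lt_of_le hh (min_le_right _ _)
  rw [hD0]
  rcases h1 with h1 | h1
  · have e : dT p (P h) = b + ‖X - (h : ℂ) * w‖ := by
      have e1 : p.1 - (z + (h : ℂ) * w) = X - (h : ℂ) * w := by rw [hX]; ring
      rw [h1, dT_of_lt (by simpa [uu_one, e1] using h2.1)]
      simp only [uu_one, al_one, e1]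
      ring
    rw [e]
    have := hlow h
    nlinarith [sq_nonneg h]
  · have e : b + ‖X - ((Real.tanh h : ℝ) : ℂ) * w‖ ≤ dT p (P h) := by
      have e1 : p.1 - (z + ((Real.tanh h : ℝ) : ℂ) * w) = X - ((Real.tanh h : ℝ) : ℂ) * w := by
        rw [hX]; ring
      rw [h1, arc_top, dT_of_lt (by simp only [e1]; exact h2.2)]
      simp only [e1]
      have := uu_le_al (div_pos one_pos (Real.cosh_pos h)) (one_div_cosh_le h)
      linarith
    have e2 : (b + ‖X - ((Real.tanh h : ℝ) : ℂ) * w‖) ^ 2 ≤ dT p (P h) ^ 2 :=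
      pow_le_pow_left₀ (by positivity) e 2
    refine le_trans ?_ e2
    refine le_trans ?_ (hlow (Real.tanh h))
    have h3 := abs_tanh_sub hh2
    set d := Real.tanh h - h with hd
    have h4 : Real.tanh h = h + d := by rw [hd]; ring
    rw [h4]
    have hah := abs_nonneg h
    have h5 : |h| ^ 3 = |h| * h ^ 2 := by rw [← sq_abs h]; ring
    have h6 : |μ * d| ≤ |h| * h ^ 2 := by
      rw [abs_mul, ← h5]
      calc |μ| * |d| ≤ 1 * |h| ^ 3 := by gcongr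
        _ = |h| ^ 3 := one_mul _
    have h7 : |h * d| ≤ |h| * h ^ 2 := by
      rw [abs_mul, ← h5]
      calc |h| * |d| ≤ 1 * |h| ^ 3 := by gcongr
        _ = |h| ^ 3 := one_mul _
    have h8 : (2 * D + 2) * (|h| * h ^ 2) ≤ ε * h ^ 2 := by
      rw [lt_div_iff₀ (by positivity)] at hh3
      nlinarith [sq_nonneg h]
    have h9 := (abs_le.1 h6).2
    have h10 := (abs_le.1 h7).1
    nlinarith [sq_nonneg d]

end Pool.Agent.Work.MP_f0c219_gt.TruncHyp
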