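import Pool.Agent.Work.MP_f0c219_gt_h31.D3

/-!
# Block D, part 4: second order lower supports of the squared distance, crossing case
-/

open Set Topology Filter

namespace Pool.Agent.Work.MP_f0c219_gt.TruncHyp

/-- The key inequality: `F F'' + F'² ≥ 1`. -/
theorem key_ineq {t u c κ r F : ℝ} (hu : 0 < u) (htu : t ^ 2 + u ^ 2 = 1) (hr : u ≤ r)
    (hF : r ≤ F) (hκ : κ ^ 2 ≤ 1 - c ^ 2) :
    1 ≤ F * (c ^ 2 / u + u - 2 * u * c ^ 2 + 2 * c * t * κ + t ^ 2 * (1 - c ^ 2 - κ ^ 2) / r) +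
      (u * c - t * κ) ^ 2 := by
  have hr0 : 0 < r := lt_of_lt_of_le hu hr
  have e : c ^ 2 / u + u - 2 * u * c ^ 2 + 2 * c * t * κ + t ^ 2 * (1 - c ^ 2 - κ ^ 2) / r =
      (c * t + u * κ) ^ 2 / u + (u + t ^ 2 / r) * (1 - c ^ 2 - κ ^ 2) := by
    have ht : t ^ 2 = 1 - u ^ 2 := by linarith
    field_simp
    have e2 : (c * t + u * κ) ^ 2 = c ^ 2 * (1 - u ^ 2) + 2 * c * t * u * κ + u ^ 2 * κ ^ 2 := by
      rw [← ht]; ring
    rw [e2, ht]
    ring
  rw [e]
  set q := 1 - c ^ 2 - κ ^ 2 with hq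
  have hq0 : 0 ≤ q := by rw [hq]; linarith
  have h1 : 0 ≤ (c * t + u * κ) ^ 2 / u + (u + t ^ 2 / r) * q := by positivity
  have h2 : r * ((c * t + u * κ) ^ 2 / u + (u + t ^ 2 / r) * q) ≤
      F * ((c * t + u * κ) ^ 2 / u + (u + t ^ 2 / r) * q) := mul_le_mul_of_nonneg_right hF h1
  have h3 : r * ((c * t + u * κ) ^ 2 / u + (u + t ^ 2 / r) * q) =
      r / u * (c * t + u * κ) ^ 2 + (r * u + t ^ 2) * q := by field_simp
  have h4 : (c * t + u * κ) ^ 2 ≤ r / u * (c * t + u * κ) ^ 2 := by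
    have : 1 ≤ r / u := by rw [le_div_iff₀ hu]; linarith
    nlinarith [sq_nonneg (c * t + u * κ)]
  have h5 : 1 * q ≤ (r * u + t ^ 2) * q := by
    apply mul_le_mul_of_nonneg_right _ hq0
    nlinarith
  have h6 : (c * t + u * κ) ^ 2 + (u * c - t * κ) ^ 2 + q = 1 := by
    rw [hq]
    have : (c * t + u * κ) ^ 2 + (u * c - t * κ) ^ 2 = (c ^ 2 + κ ^ 2) * (t ^ 2 + u ^ 2) := by ring
    rw [this, htu]; ring
  linarith

section deriv

variable (t c q k r : ℝ)

/-- `1 / height` along an arc -/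
noncomputable def Yy (h : ℝ) : ℝ := Nn c h / t

/-- derivative of `Yy` -/
noncomputable def Yd (h : ℝ) : ℝ := (Real.sinh h + c * Real.cosh h) / t

/-- horizontal displacement along an arc -/
noncomputable def ff (h : ℝ) : ℝ := t * Real.sinh h / Nn c h

/-- square of the horizontal distance -/
noncomputable def QQ (h : ℝ) : ℝ := r ^ 2 - 2 * ff t c h * k + ff t c h ^ 2 * q

/-- derivative of the distance -/
noncomputable def Fd (h : ℝ) : ℝ :=
  √(Yy t c h ^ 2 - 1) * Yd t c h / Yy t c h ^ 2 +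
    (1 / (t * Yy t c h ^ 2)) * (ff t c h * q - k) / √(QQ t c q k r h)

theorem hasDerivAt_Nn (h : ℝ) : HasDerivAt (Nn c) (Real.sinh h + c * Real.cosh h) h :=
  (Real.hasDerivAt_cosh h).add ((Real.hasDerivAt_sinh h).const_mul c)

theorem hasDerivAt_Yy (h : ℝ) : HasDerivAt (Yy t c) (Yd t c h) h :=
  (hasDerivAt_Nn c h).div_const t

theorem hasDerivAt_Yd (h : ℝ) : HasDerivAt (Yd t c) (Yy t c h) h :=
  ((Real.hasDerivAt_sinh h).add ((Real.hasDerivAt_cosh h).const_mul c)).div_const t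

variable {t c q k r}

theorem hasDerivAt_ff (ht : 0 < t) (hc : |c| ≤ 1) (h : ℝ) :
    HasDerivAt (ff t c) (1 / (t * Yy t c h ^ 2)) h := by
  have hN := Nn_pos hc h
  have h1 := ((Real.hasDerivAt_sinh h).const_mul t).div (hasDerivAt_Nn c h) hN.ne'
  have e : (t * Real.cosh h * Nn c h - t * Real.sinh h * (Real.sinh h + c * Real.cosh h)) /
      Nn c h ^ 2 = 1 / (t * Yy t c h ^ 2) := by
    have e1 : t * Real.cosh h * Nn c h - t * Real.sinh h * (Real.sinh h + c * Real.cosh h) = t := by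
      unfold Nn
      have := Real.cosh_sq h
      linear_combination t * this
    rw [e1, Yy]
    field_simp
  rw [e] at h1
  exact h1

theorem hasDerivAt_sqrtQQ (ht : 0 < t) (hc : |c| ≤ 1) {h : ℝ} (hQ : 0 < QQ t c q k r h) :
    HasDerivAt (fun h => √(QQ t c q k r h))
      ((1 / (t * Yy t c h ^ 2)) * (ff t c h * q - k) / √(QQ t c q k r h)) h := by
  have h1 := hasDerivAt_ff ht hc h
  have h2 : HasDerivAt (QQ t c q k r) (0 - 2 * (1 / (t * Yy t c h ^ 2)) * k +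
      (((2 : ℕ) : ℝ) * ff t c h ^ (2 - 1) * (1 / (t * Yy t c h ^ 2))) * q) h :=
    ((hasDerivAt_const h (r ^ 2)).sub ((h1.const_mul 2).mul_const k)).add ((h1.pow 2).mul_const q)
  have h3 := h2.sqrt hQ.ne'
  have hs : 0 < √(QQ t c q k r h) := Real.sqrt_pos.2 hQ
  have e : (0 - 2 * (1 / (t * Yy t c h ^ 2)) * k +
      (((2 : ℕ) : ℝ) * ff t c h ^ (2 - 1) * (1 / (t * Yy t c h ^ 2))) * q) /
      (2 * √(QQ t c q k r h)) =
      (1 / (t * Yy t c h ^ 2)) * (ff t c h * q - k) / √(QQ t c q k r h) := by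
    have hY : 0 < Yy t c h := div_pos (Nn_pos hc h) ht
    norm_num
    field_simp
    ring
  rw [e] at h3
  exact h3

theorem hasDerivAt_v {h : ℝ} (hY : 1 < Yy t c h) :
    HasDerivAt (fun h => √(Yy t c h ^ 2 - 1)) (Yy t c h * Yd t c h / √(Yy t c h ^ 2 - 1)) h := by
  have hv : 0 < Yy t c h ^ 2 - 1 := by nlinarith
  have h1 := (((hasDerivAt_Yy t c h).pow 2).sub_const 1).sqrt hv.ne'
  have hs : 0 < √(Yy t c h ^ 2 - 1) := Real.sqrt_pos.2 hv
  have e : (((2 : ℕ) : ℝ) * Yy t c h ^ (2 - 1) * Yd t c h) / (2 * √(Yy t c h ^ 2 - 1)) =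
      Yy t c h * Yd t c h / √(Yy t c h ^ 2 - 1) := by
    norm_num
    field_simp
  exact h1.congr_deriv e

theorem hasDerivAt_F (ht : 0 < t) (hc : |c| ≤ 1) (b : ℝ) {h : ℝ} (hY : 1 < Yy t c h)
    (hQ : 0 < QQ t c q k r h) :
    HasDerivAt (fun h => b + (Real.arcosh (Yy t c h) - √(Yy t c h ^ 2 - 1) / Yy t c h) +
      √(QQ t c q k r h)) (Fd t c q k r h) h := by
  have hv : 0 < Yy t c h ^ 2 - 1 := by nlinarith
  have hs : 0 < √(Yy t c h ^ 2 - 1) := Real.sqrt_pos.2 hv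
  have hss : √(Yy t c h ^ 2 - 1) ^ 2 = Yy t c h ^ 2 - 1 := Real.sq_sqrt hv.le
  have hY0 : 0 < Yy t c h := by linarith
  have h1 := (Real.hasDerivAt_arcosh (x := Yy t c h) hY).comp h (hasDerivAt_Yy t c h)
  have h2 := (hasDerivAt_v hY).div (hasDerivAt_Yy t c h) hY0.ne'
  have h3 := ((h1.sub h2).const_add b).add (hasDerivAt_sqrtQQ ht hc hQ)
  refine h3.congr_deriv ?_
  unfold Fd
  congr 1
  field_simp
  rw [hss]
  ring

end deriv

/-- the second derivative of the distance, before simplification -/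
noncomputable def raw (Y Y' v R f t q k : ℝ) : ℝ :=
  (((Y * Y' / v) * Y' + v * Y) * Y ^ 2 - v * Y' * (2 * Y * Y')) / (Y ^ 2) ^ 2 +
    (((-(t * (2 * Y * Y'))) / (t * Y ^ 2) ^ 2 * (f * q - k) + 1 / (t * Y ^ 2) * (1 / (t * Y ^ 2) * q)) *
      R - 1 / (t * Y ^ 2) * (f * q - k) * (1 / (t * Y ^ 2) * (f * q - k) / R)) / R ^ 2

theorem raw_eq {t u c κ r : ℝ} (ht : 0 < t) (hu : 0 < u) (hr : 0 < r) (h : t ^ 2 + u ^ 2 = 1) :
    raw (1 / t) (c / t) (u / t) r 0 t (1 - c ^ 2) (κ * r) =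
      c ^ 2 / u + u - 2 * u * c ^ 2 + 2 * c * t * κ + t ^ 2 * (1 - c ^ 2 - κ ^ 2) / r := by
  unfold raw
  have ht2 : t ^ 2 = 1 - u ^ 2 := by linarith
  field_simp
  ring

/-- Arc-like points, crossing case. -/
theorem supp_arc_of_lt {p : ℂ × ℝ} (hp : Ok p) (z : ℂ) {t c : ℝ} {w : ℂ} (ht : 0 < t) (ht1 : t < 1)
    (hw : c ^ 2 + ‖w‖ ^ 2 = 1) (hlt : uu p.2 + uu t < ‖p.1 - z‖) : Supp p (arc z t c w) := by
  have hc : |c| ≤ 1 := by
    apply abs_le_of_sq_le_sq _ zero_le_one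
    nlinarith [sq_nonneg ‖w‖]
  set X := p.1 - z with hX
  set r := ‖X‖ with hr
  set k := ip X w with hk
  set q := 1 - c ^ 2 with hq
  set b := al p.2 - uu p.2 with hb
  have hb0 : 0 ≤ b := by rw [hb]; linarith [uu_le_al hp.1 hp.2]
  have hu0 := uu_pos ht ht1
  have hup := uu_nonneg p.2
  have hr0 : 0 < r := by linarith
  have hw' : ‖w‖ ^ 2 = q := by rw [hq]; linarith
  set F : ℝ → ℝ := fun h => b + (Real.arcosh (Yy t c h) - √(Yy t c h ^ 2 - 1) / Yy t c h) +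
      √(QQ t c q k r h) with hF
  have hY0 : Yy t c 0 = 1 / t := by simp [Yy, Nn_zero]
  have hYd0 : Yd t c 0 = c / t := by simp [Yd]
  have hf0 : ff t c 0 = 0 := by simp [ff]
  have hQ0 : QQ t c q k r 0 = r ^ 2 := by simp [QQ, hf0]
  have hv0 : √(Yy t c 0 ^ 2 - 1) = uu t / t := by
    rw [hY0]
    have : (1 / t) ^ 2 - 1 = (uu t / t) ^ 2 := by
      rw [div_pow, div_pow, uu_sq ht ht1.le]; field_simp
    rw [this, Real.sqrt_sq (by positivity)]
  have hsQ0 : √(QQ t c q k r 0) = r := by rw [hQ0, Real.sqrt_sq hr0.le]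
  -- continuity
  have hcY : ContinuousAt (Yy t c) 0 := (hasDerivAt_Yy t c 0).continuousAt
  have hcf : ContinuousAt (ff t c) 0 := (hasDerivAt_ff ht hc 0).continuousAt
  have hcQ : ContinuousAt (QQ t c q k r) 0 := by
    unfold QQ
    exact ((continuousAt_const.sub ((continuousAt_const.mul hcf).mul continuousAt_const)).add
      ((hcf.pow 2).mul continuousAt_const))
  have evY : ∀ᶠ h in 𝓝 (0 : ℝ), 1 < Yy t c h := by
    apply continuousAt_const.eventually_lt hcY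
    rw [hY0, one_lt_div ht]; exact ht1
  have evQ : ∀ᶠ h in 𝓝 (0 : ℝ), 0 < QQ t c q k r h := by
    apply continuousAt_const.eventually_lt hcQ
    rw [hQ0]; positivity
  have evC : ∀ᶠ h in 𝓝 (0 : ℝ), uu p.2 + uu (1 / Yy t c h) < √(QQ t c q k r h) := by
    have c1 : ContinuousAt (fun h => uu p.2 + uu (1 / Yy t c h)) 0 := by
      have hYne : Yy t c 0 ≠ 0 := by rw [hY0]; positivity
      unfold uu
      exact continuousAt_const.add ((continuousAt_const.sub
        ((continuousAt_const.div hcY hYne).pow 2)).sqrt)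
    apply c1.eventually_lt hcQ.sqrt
    rw [hsQ0, hY0, one_div_one_div]; exact hlt
  -- the distance is `F`
  have hdist : ∀ h, 1 < Yy t c h → uu p.2 + uu (1 / Yy t c h) < √(QQ t c q k r h) →
      dT p (arc z t c w h) = F h := by
    intro h h1 h2
    have hN := Nn_pos hc h
    have hY : 0 < Yy t c h := by linarith
    have e1 : (arc z t c w h).2 = 1 / Yy t c h := by
      simp only [arc, Yy]; field_simp
    have e2 : ‖p.1 - (arc z t c w h).1‖ = √(QQ t c q k r h) := by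
      have e3 : p.1 - (arc z t c w h).1 = X - ((ff t c h : ℝ) : ℂ) * w := by
        simp only [arc, ff, hX]; ring
      rw [e3, ← Real.sqrt_sq (norm_nonneg (X - ((ff t c h : ℝ) : ℂ) * w)), sq_norm_sub, hw']
      rfl
    rw [dT_of_lt (by rw [e1, e2]; exact h2), e1, e2]
    have g0 : 0 < 1 / Yy t c h := by positivity
    have g1 : 1 / Yy t c h ≤ 1 := by rw [div_le_one hY]; exact h1.le
    rw [al_eq_arcosh g0 g1, one_div_one_div]
    have e4 : uu (1 / Yy t c h) = √(Yy t c h ^ 2 - 1) / Yy t c h := by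
      unfold uu
      have : 1 - (1 / Yy t c h) ^ 2 = (Yy t c h ^ 2 - 1) / Yy t c h ^ 2 := by field_simp
      rw [this, Real.sqrt_div (by nlinarith), Real.sqrt_sq hY.le]
    rw [e4]
  have hF0 : dT p (arc z t c w 0) = F 0 := by
    apply hdist
    · rw [hY0, one_lt_div ht]; exact ht1
    · rw [hsQ0, hY0, one_div_one_div]; exact hlt
  -- derivatives
  have hd1 : ∀ᶠ h in 𝓝 (0 : ℝ), HasDerivAt (fun h => F h ^ 2) (2 * F h * Fd t c q k r h) h := by
    filter_upwards [evY, evQ] with h h1 h2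
    have h3 := (hasDerivAt_F ht hc b h1 h2).pow 2
    have e : (((2 : ℕ) : ℝ) * F h ^ (2 - 1) * Fd t c q k r h) = 2 * F h * Fd t c q k r h := by
      norm_num
    exact h3.congr_deriv e
  set κ := k / r with hκ
  have hkr : k = κ * r := by rw [hκ]; field_simp
  set F2 := c ^ 2 / uu t + uu t - 2 * uu t * c ^ 2 + 2 * c * t * κ +
    t ^ 2 * (1 - c ^ 2 - κ ^ 2) / r with hF2
  have hd2 : HasDerivAt (Fd t c q k r) F2 0 := by
    have h1 : (1 : ℝ) < Yy t c 0 := by rw [hY0, one_lt_div ht]; exact ht1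
    have hYne : Yy t c 0 ^ 2 ≠ 0 := by rw [hY0]; positivity
    have hYne' : t * Yy t c 0 ^ 2 ≠ 0 := by rw [hY0]; positivity
    have a1 := ((hasDerivAt_v h1).mul (hasDerivAt_Yd t c 0)).div ((hasDerivAt_Yy t c 0).pow 2) hYne
    have a2 := (hasDerivAt_const (0 : ℝ) (1 : ℝ)).div (((hasDerivAt_Yy t c 0).pow 2).const_mul t)
      hYne'
    have a3 := ((hasDerivAt_ff ht hc 0).mul_const q).sub_const k
    have hQpos : 0 < QQ t c q k r 0 := by rw [hQ0]; positivity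
    have a4 := hasDerivAt_sqrtQQ (q := q) (k := k) (r := r) ht hc hQpos
    have hsne : √(QQ t c q k r 0) ≠ 0 := by rw [hsQ0]; exact hr0.ne'
    have a5 := a1.add ((a2.mul a3).div a4 hsne)
    refine a5.congr_deriv (Eq.trans (b := raw (Yy t c 0) (Yd t c 0) (√(Yy t c 0 ^ 2 - 1))
      (√(QQ t c q k r 0)) (ff t c 0) t q k) ?_ ?_)
    · unfold raw
      norm_num
    · rw [hv0, hsQ0, hY0, hYd0, hf0, hkr, hq]
      exact raw_eq ht hu0 hr0 (by rw [uu_sq ht ht1.le]; ring)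
  have hd3 : HasDerivAt (fun h => 2 * F h * Fd t c q k r h)
      (2 * (F 0 * F2 + Fd t c q k r 0 ^ 2)) 0 := by
    have h1 := ((hasDerivAt_F ht hc b evY.self_of_nhds evQ.self_of_nhds).const_mul 2).mul hd2
    refine h1.congr_deriv ?_
    ring
  have hFd0 : Fd t c q k r 0 = uu t * c - t * κ := by
    unfold Fd
    rw [hv0, hsQ0, hY0, hYd0, hf0, hkr]
    field_simp
    ring
  have hge : 2 ≤ 2 * (F 0 * F2 + Fd t c q k r 0 ^ 2) := by
    rw [hFd0]
    have hκ2 : κ ^ 2 ≤ 1 - c ^ 2 := by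
      rw [hκ, div_pow, div_le_iff₀ (by positivity), ← hq, ← hw', mul_comm]
      exact ip_sq_le X w
    have hFr : r ≤ F 0 := by
      rw [← hF0, dT_of_lt (by rw [arc_zero]; exact hlt), arc_zero]
      have := uu_le_al ht ht1.le
      simp only
      linarith
    have := key_ineq hu0 (by rw [uu_sq ht ht1.le]; ring : t ^ 2 + uu t ^ 2 = 1)
      (by linarith : uu t ≤ r) hFr hκ2
    linarith
  obtain ⟨m, hm⟩ := support_of_deriv hd1 hd3 hge
  refine ⟨m, fun ε hε => ?_⟩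
  filter_upwards [hm ε hε, evY, evC] with h h1 h2 h3
  rw [hF0, hdist h h2 h3]
  exact h1

end Pool.Agent.Work.MP_f0c219_gt.TruncHyp
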