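import Pool.Agent.Work.MP_f0c219_gt_h31.D4

/-!
# Block D, part 5: paths
-/

open Set Topology Filter

namespace Pool.Agent.Work.MP_f0c219_gt.TruncHyp

/-- `P` is a hyperbolic geodesic, or tangent to the horosphere, near `s`. -/
def Loc (P : ℝ → ℂ × ℝ) (s : ℝ) : Prop :=
  (∃ (z : ℂ) (t c : ℝ) (w : ℂ), 0 < t ∧ t < 1 ∧ c ^ 2 + ‖w‖ ^ 2 = 1 ∧
    ∀ᶠ h in 𝓝 (0 : ℝ), P (s + h) = arc z t c w h) ∨
  (∃ z w : ℂ, ‖w‖ = 1 ∧ P s = (z, 1) ∧ Top z w (fun h => P (s + h)))

theorem supp_congr {p : ℂ × ℝ} {P P' : ℝ → ℂ × ℝ} (h : ∀ᶠ x in 𝓝 (0 : ℝ), P x = P' x)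
    (hs : Supp p P') : Supp p P := by
  obtain ⟨m, hm⟩ := hs
  refine ⟨m, fun ε hε => ?_⟩
  filter_upwards [hm ε hε, h] with x h1 h2
  rw [h2, h.self_of_nhds]
  exact h1

theorem supp_of_loc {p : ℂ × ℝ} (hp : Ok p) {P : ℝ → ℂ × ℝ} {s : ℝ} (h : Loc P s) :
    Supp p (fun h => P (s + h)) := by
  rcases h with ⟨z, t, c, w, ht, ht1, hw, hP⟩ | ⟨z, w, hw, h0, hP⟩
  · apply supp_congr hP
    rcases le_or_gt ‖p.1 - z‖ (uu p.2 + uu t) with h | h
    · exact supp_arc_of_le hp z ht ht1 hw h
    · exact supp_arc_of_lt hp z ht ht1 hw h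
  · rcases le_or_gt ‖p.1 - z‖ (uu p.2) with h | h
    · exact supp_top_of_le hp hw (by simpa using h0) hP h
    · exact supp_top_of_lt hp hw (by simpa using h0) hP h

theorem continuousOn_al : ContinuousOn al {t : ℝ | 0 < t ∧ t ≤ 1} := by
  have h : ContinuousOn (fun t : ℝ => Real.arcosh (1 / t)) {t : ℝ | 0 < t ∧ t ≤ 1} := by
    apply Real.continuousOn_arcosh.comp
    · apply ContinuousOn.div continuousOn_const continuousOn_id
      intro t ht; exact ht.1.ne'
    · intro t ht
      simp only [mem_Ici]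
      rw [le_div_iff₀ ht.1]; linarith [ht.2]
  exact h.congr fun t ht => al_eq_arcosh ht.1 ht.2

theorem continuousOn_dT {p : ℂ × ℝ} (hp : Ok p) : ContinuousOn (dT p) {q | Ok q} := by
  rw [continuousOn_iff_continuous_domRestrict]
  have hf : Continuous fun q : {q : ℂ × ℝ | Ok q} => ‖p.1 - q.1.1‖ := by fun_prop
  have hu : Continuous fun q : {q : ℂ × ℝ | Ok q} => uu q.1.2 := by
    unfold uu; fun_prop
  have ha : Continuous fun q : {q : ℂ × ℝ | Ok q} => al q.1.2 := by
    have := continuousOn_al.comp_continuous (f := fun q : {q : ℂ × ℝ | Ok q} => q.1.2)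
      (by fun_prop) (fun q => q.2)
    exact this
  have hC' : Continuous fun q : {q : ℂ × ℝ | Ok q} => Real.arcosh (hC p q.1) := by
    apply Real.continuousOn_arcosh.comp_continuous
    · unfold hC
      apply Continuous.div (by fun_prop) (by fun_prop)
      intro q
      have h1 := hp.1
      have h2 : 0 < q.1.2 := q.2.1
      positivity
    · intro q
      exact one_le_hC hp q.2
  refine Continuous.if_le hC' (((continuous_const (y := al p.2 - uu p.2)).add (ha.sub hu)).add hf)
    hf (continuous_const.add hu) ?_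
  intro q hq
  have h1 : hC p q.1 = Real.cosh (al p.2 + al q.1.2) := by
    rw [cosh_add_al hp.1 hp.2 q.2.1 q.2.2, hC, hq]
  rw [h1, Real.arcosh_cosh (add_nonneg al_nonneg al_nonneg), hq]
  ring

/-- The CAT(0) inequality along good paths. -/
theorem ineq_of_path {p : ℂ × ℝ} (hp : Ok p) {P : ℝ → ℂ × ℝ} {L : ℝ} (hL : 0 < L)
    (hok : ∀ s ∈ Icc 0 L, Ok (P s)) (hc : ContinuousOn P (Icc 0 L))
    (hloc : ∀ s ∈ Ioo 0 L, Loc P s) {τ : ℝ} (hτ : τ ∈ Icc (0 : ℝ) 1) :
    dT p (P (τ * L)) ^ 2 ≤ (1 - τ) * dT p (P 0) ^ 2 + τ * dT p (P L) ^ 2 - τ * (1 - τ) * L ^ 2 := by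
  have h1 : ContinuousOn (fun s => dT p (P s) ^ 2 - s ^ 2) (Icc 0 L) := by
    have h2 : ContinuousOn (fun s => dT p (P s)) (Icc 0 L) :=
      (continuousOn_dT hp).comp hc (fun s hs => hok s hs)
    exact (h2.pow 2).sub (by fun_prop)
  have h2 := le_interp hL h1 (fun s hs => by
    obtain ⟨m, hm⟩ := supp_of_loc hp (hloc s hs)
    refine ⟨m - 2 * s, fun ε hε => ?_⟩
    filter_upwards [hm ε hε] with h hh
    simp only [add_zero] at hh
    nlinarith) (s := τ * L) ⟨by nlinarith [hτ.1], by nlinarith [hτ.2]⟩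
  have e : τ * L / L = τ := by field_simp
  rw [e] at h2
  nlinarith

theorem continuous_arc (z : ℂ) (t : ℝ) {c : ℝ} (hc : |c| ≤ 1) (w : ℂ) : Continuous (arc z t c w) := by
  have hN : Continuous (Nn c) := by unfold Nn; fun_prop
  have h1 : Continuous fun h => t * Real.sinh h / Nn c h :=
    (by fun_prop : Continuous fun h => t * Real.sinh h).div hN (fun h => (Nn_pos hc h).ne')
  have h2 : Continuous fun h => ((t * Real.sinh h / Nn c h : ℝ) : ℂ) :=
    Complex.continuous_ofReal.comp h1
  unfold arc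
  exact (continuous_const.add (h2.mul continuous_const)).prodMk
    (continuous_const.div hN (fun h => (Nn_pos hc h).ne'))

/-- arcs are locally good -/
theorem loc_arc {P : ℝ → ℂ × ℝ} {s σ : ℝ} {z : ℂ} {t c : ℝ} {w : ℂ} (ht : 0 < t)
    (hw : c ^ 2 + ‖w‖ ^ 2 = 1) (hlt : t < Nn c σ)
    (hP : ∀ᶠ h in 𝓝 (0 : ℝ), P (s + h) = arc z t c w (σ + h)) : Loc P s := by
  have hc : |c| ≤ 1 := by
    apply abs_le_of_sq_le_sq _ zero_le_one
    nlinarith [sq_nonneg ‖w‖]
  have hN := Nn_pos hc σ
  left
  refine ⟨(arc z t c w σ).1, _, _, _, div_pos ht hN, (div_lt_one hN).2 hlt, recenter_sq c σ w hc hw, ?_⟩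
  filter_upwards [hP] with h hh
  rw [hh, arc_add z t c w hc σ h]

theorem mid_ineq {A A' L s : ℝ} (hA : 0 ≤ A) (hA' : 0 ≤ A') (hs : 0 ≤ s) (hsL : s ≤ L)
    (hL : L ≤ A + A') :
    Real.sinh L ≤ Real.sinh (L - s) * Real.cosh A + Real.sinh s * Real.cosh A' := by
  have key : ∀ x y a a' : ℝ, 0 ≤ x → 0 ≤ y → x + y ≤ a →
      Real.sinh (x + y) ≤ Real.sinh y * Real.cosh a + Real.sinh x * Real.cosh a' := by
    intro x y a a' hx hy ha
    have h1 : Real.cosh (x + y) ≤ Real.cosh a := by
      apply Real.cosh_le_cosh.2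
      rw [abs_of_nonneg (by linarith), abs_of_nonneg (by linarith)]
      exact ha
    have h2 := Real.one_le_cosh a'
    have hsx := Real.sinh_nonneg_iff.2 hx
    have hsy := Real.sinh_nonneg_iff.2 hy
    have hcx := Real.one_le_cosh x
    have hcy := Real.one_le_cosh y
    have h3 : Real.sinh y * Real.cosh (x + y) ≤ Real.sinh y * Real.cosh a :=
      mul_le_mul_of_nonneg_left h1 hsy
    have h4 : Real.sinh x * 1 ≤ Real.sinh x * Real.cosh a' := mul_le_mul_of_nonneg_left h2 hsx
    have h5 : Real.sinh y * (Real.cosh (x + y) - Real.cosh x) + Real.sinh x * 1 -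
        Real.sinh x * Real.cosh y = (Real.cosh y - 1) * (Real.sinh y * Real.cosh x +
        Real.sinh x * Real.cosh y) := by
      rw [Real.cosh_add]
      have := Real.cosh_sq y
      linear_combination (-Real.sinh x) * this
    have h6 : 0 ≤ (Real.cosh y - 1) * (Real.sinh y * Real.cosh x + Real.sinh x * Real.cosh y) := by
      apply mul_nonneg (by linarith)
      positivity
    rw [Real.sinh_add]
    linarith
  rcases le_or_gt L A with h | h
  · have := key s (L - s) A A' hs (by linarith) (by linarith)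
    have e : s + (L - s) = L := by ring
    rwa [e] at this
  rcases le_or_gt L A' with h' | h'
  · have := key (L - s) s A' A (by linarith) hs (by linarith)
    have e : L - s + s = L := by ring
    rw [e] at this
    linarith
  · have h1 : Real.cosh (L - A) ≤ Real.cosh A' := by
      apply Real.cosh_le_cosh.2
      rw [abs_of_nonneg (by linarith), abs_of_nonneg (by linarith)]
      linarith
    have h2 : Real.sinh s * Real.cosh (L - A) ≤ Real.sinh s * Real.cosh A' :=
      mul_le_mul_of_nonneg_left h1 (Real.sinh_nonneg_iff.2 hs)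
    have h3 : Real.sinh (L - s) * Real.cosh A + Real.sinh s * Real.cosh (L - A) =
        Real.sinh L * Real.cosh (A - s) := by
      rw [Real.sinh_sub, Real.cosh_sub, Real.cosh_sub]
      ring
    have h4 : Real.sinh L * 1 ≤ Real.sinh L * Real.cosh (A - s) :=
      mul_le_mul_of_nonneg_left (Real.one_le_cosh _) (Real.sinh_nonneg_iff.2 (by linarith))
    linarith

/-- A good path exists. -/
def HasPath (p q : ℂ × ℝ) : Prop :=
  ∃ P : ℝ → ℂ × ℝ, P 0 = p ∧ P (dT p q) = q ∧ (∀ s ∈ Icc 0 (dT p q), Ok (P s)) ∧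
    ContinuousOn P (Icc 0 (dT p q)) ∧ ∀ s ∈ Ioo 0 (dT p q), Loc P s

theorem hasPath_of_le {p q : ℂ × ℝ} (hp : Ok p) (hq : Ok q) (hne : p ≠ q)
    (hle : ‖p.1 - q.1‖ ≤ uu p.2 + uu q.2) : HasPath p q := by
  have hp0 := hp.1
  have hq0 := hq.1
  have hcosh := dT_of_le hp hq hle
  set L := dT p q with hLdef
  have hL : 0 < L := lt_of_le_of_ne (dT_nonneg hp hq) (fun h => hne (eq_of_dT hp hq h.symm))
  have hsL : 0 < Real.sinh L := Real.sinh_pos_iff.2 hL
  set c : ℝ := (p.2 / q.2 - Real.cosh L) / Real.sinh L with hc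
  set w : ℂ := ((1 / (q.2 * Real.sinh L) : ℝ) : ℂ) * (q.1 - p.1) with hw
  have hC2 : ‖p.1 - q.1‖ ^ 2 = 2 * p.2 * q.2 * Real.cosh L - p.2 ^ 2 - q.2 ^ 2 := by
    rw [hcosh, hC]; field_simp; ring
  have hcw : c ^ 2 + ‖w‖ ^ 2 = 1 := by
    rw [hw, norm_mul, mul_pow, Complex.norm_real, Real.norm_eq_abs, sq_abs, norm_sub_rev, hC2, hc]
    have h1 : Real.sinh L ^ 2 = Real.cosh L ^ 2 - 1 := by
      have := Real.cosh_sq L; linarith
    have h2 : (p.2 / q.2 - Real.cosh L) ^ 2 + (2 * p.2 * q.2 * Real.cosh L - p.2 ^ 2 - q.2 ^ 2) /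
        q.2 ^ 2 = Real.sinh L ^ 2 := by
      rw [h1]; field_simp; ring
    have h3 : ((p.2 / q.2 - Real.cosh L) / Real.sinh L) ^ 2 + (1 / (q.2 * Real.sinh L)) ^ 2 *
        (2 * p.2 * q.2 * Real.cosh L - p.2 ^ 2 - q.2 ^ 2) =
        ((p.2 / q.2 - Real.cosh L) ^ 2 + (2 * p.2 * q.2 * Real.cosh L - p.2 ^ 2 - q.2 ^ 2) /
        q.2 ^ 2) / Real.sinh L ^ 2 := by
      field_simp
    rw [h3, h2, div_self (by positivity)]
  have hc1 : |c| ≤ 1 := by
    apply abs_le_of_sq_le_sq _ zero_le_one
    nlinarith [sq_nonneg ‖w‖]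
  have hNs : ∀ s, Nn c s * Real.sinh L = Real.sinh (L - s) + p.2 / q.2 * Real.sinh s := by
    intro s
    have : Nn c s * Real.sinh L = Real.cosh s * Real.sinh L +
        (p.2 / q.2 - Real.cosh L) * Real.sinh s := by
      unfold Nn; rw [hc]; field_simp
    rw [this, Real.sinh_sub]; ring
  have hLle : L ≤ al p.2 + al q.2 := by
    have h1 : Real.cosh L ≤ Real.cosh (al p.2 + al q.2) := by
      rw [hcosh, cosh_add_al hp.1 hp.2 hq.1 hq.2, hC]
      have := pow_le_pow_left₀ (norm_nonneg _) hle 2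
      gcongr
    have h2 := Real.cosh_le_cosh.1 h1
    rwa [abs_of_pos hL, abs_of_nonneg (add_nonneg al_nonneg al_nonneg)] at h2
  have hN1 : ∀ s ∈ Icc 0 L, p.2 ≤ Nn c s := by
    intro s hs
    have h1 := mid_ineq (al_nonneg (t := p.2)) (al_nonneg (t := q.2)) hs.1 hs.2 hLle
    rw [cosh_al hp.1 hp.2, cosh_al hq.1 hq.2] at h1
    have h2 : p.2 * Real.sinh L ≤ Nn c s * Real.sinh L := by
      rw [hNs s]
      calc p.2 * Real.sinh L ≤ p.2 * (Real.sinh (L - s) * (1 / p.2) + Real.sinh s * (1 / q.2)) :=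
            mul_le_mul_of_nonneg_left h1 hp0.le
        _ = Real.sinh (L - s) + p.2 / q.2 * Real.sinh s := by field_simp
    exact le_of_mul_le_mul_right h2 hsL
  refine ⟨arc p.1 p.2 c w, arc_zero _ _ _ _, ?_, ?_, (continuous_arc _ _ hc1 _).continuousOn, ?_⟩
  · have h1 : Nn c L = p.2 / q.2 := by
      have := hNs L
      rw [sub_self, Real.sinh_zero, zero_add] at this
      exact mul_right_cancel₀ hsL.ne' this
    unfold arc
    rw [h1]
    refine Prod.ext ?_ ?_
    · simp only
      rw [hw, ← mul_assoc, ← Complex.ofReal_mul]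
      have : p.2 * Real.sinh L / (p.2 / q.2) * (1 / (q.2 * Real.sinh L)) = 1 := by
        field_simp
      rw [this]; simp
    · simp only; field_simp
  · intro s hs
    exact ⟨div_pos hp0 (Nn_pos hc1 s), (div_le_one (Nn_pos hc1 s)).2 (hN1 s hs)⟩
  · intro s hs
    have hs' : s ∈ Icc 0 L := ⟨hs.1.le, hs.2.le⟩
    rcases lt_or_eq_of_le (hN1 s hs') with h1 | h1
    · exact loc_arc hp0 hcw h1 (Eventually.of_forall fun h => rfl)
    · right
      have hmin : IsLocalMin (Nn c) s := by
        filter_upwards [Icc_mem_nhds hs.1 hs.2] with x hx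
        rw [← h1]; exact hN1 x hx
      have hd := hmin.hasDerivAt_eq_zero (hasDerivAt_Nn c s)
      have hNpos := Nn_pos hc1 s
      have hrec := recenter_sq c s w hc1 hcw
      rw [hd, zero_div] at hrec
      refine ⟨(arc p.1 p.2 c w s).1, ((1 / Nn c s : ℝ) : ℂ) * w, ?_, ?_, ?_⟩
      · have : ‖((1 / Nn c s : ℝ) : ℂ) * w‖ ^ 2 = 1 := by
          have h2 : (0 : ℝ) ^ 2 = 0 := by norm_num
          rw [h2, zero_add] at hrec; exact hrec
        have h3 := norm_nonneg (((1 / Nn c s : ℝ) : ℂ) * w)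
        nlinarith
      · refine Prod.ext rfl ?_
        simp only [arc]
        rw [← h1, div_self hp0.ne']
      · refine Eventually.of_forall fun h => Or.inr ?_
        simp only
        rw [arc_add p.1 p.2 c w hc1 s h, hd, zero_div, ← h1, div_self hp0.ne']

theorem tanh_al {t : ℝ} (h0 : 0 < t) (h1 : t ≤ 1) : Real.tanh (al t) = uu t :=
  Real.tanh_artanh (uu_mem h0 h1)

theorem hasPath_of_lt {p q : ℂ × ℝ} (hp : Ok p) (hq : Ok q)
    (hlt : uu p.2 + uu q.2 < ‖p.1 - q.1‖) : HasPath p q := by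
  have hp0 := hp.1
  have hq0 := hq.1
  have hL := dT_of_lt hlt
  set r := ‖p.1 - q.1‖ with hr
  have hu := uu_nonneg p.2
  have hu' := uu_nonneg q.2
  have hr0 : 0 < r := by linarith
  set A := al p.2 with hA
  set A' := al q.2 with hA'
  set B := r - uu p.2 - uu q.2 with hB
  have hB0 : 0 < B := by rw [hB]; linarith
  have hA0 : 0 ≤ A := al_nonneg
  have hA'0 : 0 ≤ A' := al_nonneg
  have hLe : dT p q = A + B + A' := by rw [hL, hB]; ring
  set e : ℂ := ((1 / r : ℝ) : ℂ) * (q.1 - p.1) with he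
  have hen : ‖e‖ = 1 := by
    rw [he, norm_mul, Complex.norm_real, Real.norm_eq_abs, norm_sub_rev, ← hr,
      abs_of_pos (by positivity)]
    field_simp
  have hqe : q.1 = p.1 + (r : ℂ) * e := by
    rw [he, ← mul_assoc, ← Complex.ofReal_mul, mul_one_div_cancel hr0.ne']; simp
  set c1 : ℂ := p.1 + (uu p.2 : ℂ) * e with hc1
  set c2 : ℂ := q.1 - (uu q.2 : ℂ) * e with hc2
  have hc12 : c2 = c1 + (B : ℂ) * e := by
    rw [hc2, hc1, hqe, hB]; push_cast; ring
  have hw0 : (0 : ℝ) ^ 2 + ‖e‖ ^ 2 = 1 := by rw [hen]; norm_num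
  have hz : |(0 : ℝ)| ≤ 1 := by norm_num
  set f1 : ℝ → ℂ × ℝ := fun s => arc c1 1 0 e (s - A) with hf1
  set f2 : ℝ → ℂ × ℝ := fun s => (c1 + ((s - A : ℝ) : ℂ) * e, 1) with hf2
  set f3 : ℝ → ℂ × ℝ := fun s => arc c2 1 0 e (s - A - B) with hf3
  set P : ℝ → ℂ × ℝ := fun s => if s ≤ A then f1 s else (if A + B ≤ s then f3 s else f2 s) with hP
  have hcf1 : Continuous f1 := (continuous_arc c1 1 hz e).comp (by fun_prop)
  have hcf2 : Continuous f2 := by
    rw [hf2]
    have : Continuous fun s : ℝ => ((s - A : ℝ) : ℂ) := Complex.continuous_ofReal.comp (by fun_prop)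
    exact (continuous_const.add (this.mul continuous_const)).prodMk continuous_const
  have hcf3 : Continuous f3 := (continuous_arc c2 1 hz e).comp (by fun_prop)
  have hcP : Continuous P := by
    refine Continuous.if_le hcf1 (Continuous.if_le hcf3 hcf2 continuous_const continuous_id ?_)
      continuous_id continuous_const ?_
    · intro s hs
      have hs' : s = A + B := hs.symm
      simp only [hf3, hf2]
      rw [hs']
      have e1 : A + B - A - B = 0 := by ring
      have e2 : A + B - A = B := by ring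
      rw [e1, e2, arc_zero, hc12]
    · intro s hs
      have hs' : s = A := hs
      rw [if_neg (by rw [hs']; linarith)]
      simp only [hf1, hf2]
      rw [hs', sub_self, arc_zero]
      simp
  refine ⟨P, ?_, ?_, ?_, hcP.continuousOn, ?_⟩
  · simp only [hP]
    rw [if_pos hA0]
    simp only [hf1, zero_sub]
    rw [arc_top, Real.tanh_neg, tanh_al hp.1 hp.2, Real.cosh_neg, cosh_al hp.1 hp.2, one_div_one_div,
      hc1]
    refine Prod.ext ?_ rfl
    simp
  · rw [hLe]
    simp only [hP]
    rw [if_neg (by linarith), if_pos (by linarith)]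
    simp only [hf3]
    have e1 : A + B + A' - A - B = A' := by ring
    rw [e1, arc_top, tanh_al hq.1 hq.2, cosh_al hq.1 hq.2, one_div_one_div, hc2]
    refine Prod.ext ?_ rfl
    simp
  · intro s _
    simp only [hP]
    have harc : ∀ (z : ℂ) (x : ℝ), Ok (arc z 1 0 e x) := by
      intro z x
      rw [arc_top]
      exact ⟨div_pos one_pos (Real.cosh_pos x), one_div_cosh_le x⟩
    split_ifs
    · exact harc _ _
    · exact harc _ _
    · exact ⟨one_pos, le_rfl⟩
  · intro s _
    have hNgt : ∀ x : ℝ, x ≠ 0 → (1 : ℝ) < Nn 0 x := by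
      intro x hx
      rw [Nn_zero_left]
      exact Real.one_lt_cosh.2 hx
    have hcont : Tendsto (fun h : ℝ => s + h) (𝓝 0) (𝓝 s) := by
      have : Continuous (fun h : ℝ => s + h) := by fun_prop
      simpa using this.tendsto 0
    rcases lt_trichotomy s A with h1 | h1 | h1
    · apply loc_arc (z := c1) (σ := s - A) one_pos hw0 (hNgt _ (by linarith : s - A < 0).ne)
      filter_upwards [hcont.eventually (gt_mem_nhds h1)] with h hh
      simp only [hP]
      rw [if_pos (le_of_lt hh)]
      simp only [hf1]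
      congr 1; ring
    · right
      refine ⟨c1, e, hen, ?_, ?_⟩
      · simp only [hP]
        rw [if_pos h1.le]
        simp only [hf1]
        rw [h1, sub_self, arc_zero]
      · filter_upwards [hcont.eventually (gt_mem_nhds (by linarith : s < A + B))] with h hh
        simp only [hP]
        split_ifs with h2 h3
        · right
          simp only [hf1]
          congr 1; linarith
        · exact absurd h3 (not_le.2 hh)
        · left
          simp only [hf2]
          have : s + h - A = h := by linarith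
          rw [this]
    · rcases lt_trichotomy s (A + B) with h2 | h2 | h2
      · right
        refine ⟨c1 + ((s - A : ℝ) : ℂ) * e, e, hen, ?_, ?_⟩
        · simp only [hP]
          rw [if_neg (not_le.2 h1), if_neg (not_le.2 h2)]
        · filter_upwards [hcont.eventually (gt_mem_nhds h2), hcont.eventually (lt_mem_nhds h1)]
            with h hh hh'
          left
          simp only [hP]
          rw [if_neg (not_le.2 hh'), if_neg (not_le.2 hh)]
          simp only [hf2]
          refine Prod.ext ?_ rfl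
          simp only
          push_cast
          ring
      · right
        refine ⟨c2, e, hen, ?_, ?_⟩
        · simp only [hP]
          rw [if_neg (not_le.2 h1), if_pos h2.ge]
          simp only [hf3]
          have : s - A - B = 0 := by linarith
          rw [this, arc_zero]
        · filter_upwards [hcont.eventually (lt_mem_nhds h1)] with h hh'
          simp only [hP]
          rw [if_neg (not_le.2 hh')]
          split_ifs with h3
          · right
            simp only [hf3]
            congr 1; linarith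
          · left
            simp only [hf2]
            refine Prod.ext ?_ rfl
            simp only
            rw [hc12, h2]
            push_cast
            ring
      · apply loc_arc (z := c2) (σ := s - A - B) one_pos hw0
          (hNgt _ (by linarith : 0 < s - A - B).ne')
        filter_upwards [hcont.eventually (lt_mem_nhds h2)] with h hh
        simp only [hP]
        rw [if_neg (by push Not; linarith), if_pos hh.le]
        simp only [hf3]
        congr 1; ring

end Pool.Agent.Work.MP_f0c219_gt.TruncHyp
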