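import Pool.Agent.Work.MP_f0c219_gt.MetricDefs

/-!
# The metric on the truncated hyperbolic space, part 1
-/

open Set Topology Filter
open scoped ComplexConjugate

namespace Pool.Agent.Work.MP_f0c219_gt.CoreMetric

open Model Borromean TruncHyp

/-! ### invariance of the hyperbolic distance -/

/-- The polarised determinant. -/
noncomputable def bil (A B : Matrix (Fin 2) (Fin 2) ℂ) : ℂ := (A + B).det - A.det - B.det

theorem bil_herm (p q : H3) : bil (herm p) (herm q) = ((2 * hC p.1 q.1 : ℝ) : ℂ) := by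
  have ht : (p.1.2 : ℂ) ≠ 0 := by exact_mod_cast p.2.ne'
  have hs : (q.1.2 : ℂ) ≠ 0 := by exact_mod_cast q.2.ne'
  unfold bil hC herm
  rw [Matrix.det_fin_two, Matrix.det_fin_two, Matrix.det_fin_two]
  simp only [Matrix.add_apply, Matrix.of_apply, Matrix.cons_val', Matrix.cons_val_zero,
    Matrix.cons_val_one, Matrix.cons_val_fin_one]
  have e : (‖p.1.1 - q.1.1‖ : ℝ) ^ 2 = Complex.normSq (p.1.1 - q.1.1) := by
    rw [Complex.normSq_eq_norm_sq]
  rw [e]
  push_cast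
  simp only [Complex.normSq_eq_conj_mul_self, map_sub]
  field_simp
  ring

theorem bil_conj (g : SL2C) (A B : Matrix (Fin 2) (Fin 2) ℂ) :
    bil ((g : Matrix (Fin 2) (Fin 2) ℂ) * A * (g : Matrix (Fin 2) (Fin 2) ℂ).conjTranspose)
      ((g : Matrix (Fin 2) (Fin 2) ℂ) * B * (g : Matrix (Fin 2) (Fin 2) ℂ).conjTranspose) =
      bil A B := by
  unfold bil
  have h : (g : Matrix (Fin 2) (Fin 2) ℂ) * A * (g : Matrix (Fin 2) (Fin 2) ℂ).conjTranspose +
      (g : Matrix (Fin 2) (Fin 2) ℂ) * B * (g : Matrix (Fin 2) (Fin 2) ℂ).conjTranspose =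
      (g : Matrix (Fin 2) (Fin 2) ℂ) * (A + B) * (g : Matrix (Fin 2) (Fin 2) ℂ).conjTranspose := by
    rw [Matrix.mul_add, Matrix.add_mul]
  rw [h]
  simp only [Matrix.det_mul, Matrix.det_conjTranspose, Matrix.SpecialLinearGroup.det_coe, star_one,
    one_mul, mul_one]

theorem hC_smul (g : SL2C) (p q : H3) : hC (g • p).1 (g • q).1 = hC p.1 q.1 := by
  have h := bil_conj g (herm p) (herm q)
  rw [← herm_mob, ← herm_mob, ← smul_def, ← smul_def, bil_herm, bil_herm] at h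
  have h2 : 2 * hC (g • p).1 (g • q).1 = 2 * hC p.1 q.1 := by exact_mod_cast h
  linarith

/-! ### heights -/

theorem cosh_one_le : Real.cosh 1 ≤ 2 := by
  rw [Real.cosh_eq, Real.exp_neg]
  have h1 := Real.exp_one_lt_d9
  have h2 := Real.exp_one_gt_d9
  have h3 : (Real.exp 1)⁻¹ ≤ 1 := by
    apply inv_le_one_of_one_le₀
    linarith
  linarith

theorem height_le {p q : ℂ × ℝ} (hp : 0 < p.2) (hq : 0 < q.2) (h : hC p q ≤ 2) :
    q.2 ≤ 4 * p.2 := by
  unfold hC at h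
  rw [div_le_iff₀ (by positivity)] at h
  nlinarith [sq_nonneg ‖p.1 - q.1‖, sq_nonneg p.2, mul_pos hp hq]

theorem le_arcosh {c x : ℝ} (hx : 1 ≤ x) (h : Real.cosh c ≤ x) : c ≤ Real.arcosh x := by
  rw [← Real.cosh_arcosh hx] at h
  have h2 := Real.cosh_le_cosh.1 h
  rw [abs_of_nonneg (Real.arcosh_nonneg hx)] at h2
  exact (le_abs_self c).trans h2

theorem arcosh_le {c x : ℝ} (hc : 0 ≤ c) (hx : 1 ≤ x) (h : x ≤ Real.cosh c) :
    Real.arcosh x ≤ c := by
  rw [← Real.cosh_arcosh hx] at h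
  have h2 := Real.cosh_le_cosh.1 h
  rw [abs_of_nonneg (Real.arcosh_nonneg hx), abs_of_nonneg hc] at h2
  exact h2

theorem arcosh_le_dTH (x y : TH) : Real.arcosh (hC x.1 y.1) ≤ dTH x y :=
  arcosh_le (dT_nonneg x.2 y.2) (one_le_hC x.2 y.2) (hC_le x.2 y.2)

theorem uu_low {t : ℝ} (h0 : 0 < t) (h1 : t ≤ 1 / 4) : 3 / 4 ≤ uu t := by
  have h2 := uu_sq h0 (by linarith)
  have h3 := uu_nonneg t
  have h4 : t ^ 2 ≤ 1 / 16 := by nlinarith
  nlinarith

theorem min_low {x y : TH} (hx : x.1.2 ≤ 1 / 4) (hy : y.1.2 ≤ 1 / 4) :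
    min (dTH x y) 1 = min (Real.arcosh (hC x.1 y.1)) 1 := by
  rw [dTH_eq]
  by_cases h : ‖x.1.1 - y.1.1‖ ≤ uu x.1.2 + uu y.1.2
  · rw [dT, if_pos h]
  · push Not at h
    have hx0 : 0 < x.1.2 := x.2.1
    have hy0 : 0 < y.1.2 := y.2.1
    have h1 := uu_low hx0 hx
    have h2 := uu_low hy0 hy
    have hr : 3 / 2 ≤ ‖x.1.1 - y.1.1‖ := by linarith
    rw [min_eq_right, min_eq_right]
    · apply le_arcosh (one_le_hC x.2 y.2)
      refine cosh_one_le.trans ?_
      unfold hC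
      rw [le_div_iff₀ (by positivity)]
      have h3 : x.1.2 * y.1.2 ≤ 1 / 16 := by nlinarith
      nlinarith [sq_nonneg x.1.2, sq_nonneg y.1.2]
    · rw [dT_of_lt h]
      have h3 := uu_le_al hx0 x.2.2
      have h4 := uu_le_al hy0 y.2.2
      linarith

/-! ### coordinates -/

theorem tau_height (γ : SL2Gi) (q : Bor.Core) : (tau γ q).1.2 = (toC γ • q.1).1.2 / 16 :=
  (D4_inv_smul _).2

theorem tau_z (γ : SL2Gi) (q : Bor.Core) : (tau γ q).1.1 = (toC γ • q.1).1.1 / 16 :=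
  (D4_inv_smul _).1

theorem hC_tau (γ : SL2Gi) (q q' : Bor.Core) : hC (tau γ q).1 (tau γ q').1 = hC q.1.1 q'.1.1 := by
  change hC (D4⁻¹ • (toC γ • q.1)).1 (D4⁻¹ • (toC γ • q'.1)).1 = _
  rw [hC_smul, hC_smul]

theorem norm_of_c_eq_zero {δ : SL2Gi} (hc : δ 1 0 = 0) (p q : H3) :
    ‖(toC δ • p).1.1 - (toC δ • q).1.1‖ = ‖p.1.1 - q.1.1‖ := by
  have h := hC_smul (toC δ) p q
  have hp : 0 < p.1.2 := p.2
  have hq : 0 < q.1.2 := q.2
  unfold hC at h
  rw [height_of_c_eq_zero hc, height_of_c_eq_zero hc, div_left_inj' (by positivity)] at h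
  have h2 : ‖(toC δ • p).1.1 - (toC δ • q).1.1‖ ^ 2 = ‖p.1.1 - q.1.1‖ ^ 2 := by linarith
  exact (sq_eq_sq₀ (norm_nonneg _) (norm_nonneg _)).1 h2

theorem dTH_equiv {γ γ' : SL2Gi} (h : (γ' * γ⁻¹) 1 0 = 0) (q q' : Bor.Core) :
    dTH (tau γ' q) (tau γ' q') = dTH (tau γ q) (tau γ q') := by
  have hsm : ∀ p : H3, toC γ' • p = toC (γ' * γ⁻¹) • (toC γ • p) := by
    intro p
    rw [← mul_smul, ← map_mul, inv_mul_cancel_right]
  have h1 : ∀ p : Bor.Core, (tau γ' p).1.2 = (tau γ p).1.2 := by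
    intro p
    rw [tau_height, tau_height, hsm, height_of_c_eq_zero h]
  have h2 : ‖(tau γ' q).1.1 - (tau γ' q').1.1‖ = ‖(tau γ q).1.1 - (tau γ q').1.1‖ := by
    rw [tau_z, tau_z, tau_z, tau_z, ← sub_div, ← sub_div, norm_div, norm_div, hsm, hsm,
      norm_of_c_eq_zero h]
  unfold dTH
  rw [h1, h1, h2]

theorem low_of {γ' : SL2Gi} {q q' : Bor.Core} (h : (tau γ' q).1.2 ≤ 1 / 16)
    (hq : hC q.1.1 q'.1.1 ≤ 2) : (tau γ' q').1.2 ≤ 1 / 4 := by
  rw [← hC_tau γ'] at hq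
  have h2 := height_le (tau γ' q).2.1 (tau γ' q').2.1 hq
  linarith

/-! ### the distance -/

/-- The distance on the core. -/
noncomputable def DD (q q' : Bor.Core) : ℝ := ⨆ γ : SL2Gi, min (dTH (tau γ q) (tau γ q')) 1

theorem bdd (q q' : Bor.Core) :
    BddAbove (range fun γ : SL2Gi => min (dTH (tau γ q) (tau γ q')) 1) := by
  refine ⟨1, ?_⟩
  rintro _ ⟨γ, rfl⟩
  exact min_le_right _ _

theorem term_le (γ : SL2Gi) (q q' : Bor.Core) : min (dTH (tau γ q) (tau γ q')) 1 ≤ DD q q' :=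
  le_ciSup (bdd q q') γ

theorem DD_le {q q' : Bor.Core} {r : ℝ} (h : ∀ γ : SL2Gi, min (dTH (tau γ q) (tau γ q')) 1 ≤ r) :
    DD q q' ≤ r := ciSup_le h

theorem le_DD (q q' : Bor.Core) : min (Real.arcosh (hC q.1.1 q'.1.1)) 1 ≤ DD q q' := by
  refine le_trans ?_ (term_le 1 q q')
  apply min_le_min_right
  rw [← hC_tau 1]
  exact arcosh_le_dTH _ _

theorem one_le_hC' (q q' : Bor.Core) : 1 ≤ hC q.1.1 q'.1.1 := by
  rw [← hC_tau 1]
  exact one_le_hC (tau 1 q).2 (tau 1 q').2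

theorem hC_le_two {q q' : Bor.Core} (h : DD q q' < 1) : hC q.1.1 q'.1.1 ≤ 2 := by
  have h1 := (le_DD q q').trans_lt h
  rw [min_lt_iff] at h1
  rcases h1 with h1 | h1
  · by_contra h2
    push Not at h2
    have := le_arcosh (one_le_hC' q q') (cosh_one_le.trans h2.le)
    linarith
  · linarith

theorem DD_eq {γ : SL2Gi} {q q' : Bor.Core} (h : ∀ γ' : SL2Gi, (γ' * γ⁻¹) 1 0 = 0 ∨
    ((tau γ' q).1.2 ≤ 1 / 4 ∧ (tau γ' q').1.2 ≤ 1 / 4)) :
    DD q q' = min (dTH (tau γ q) (tau γ q')) 1 := by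
  apply le_antisymm
  · apply DD_le
    intro γ'
    rcases h γ' with h1 | ⟨h1, h2⟩
    · rw [dTH_equiv h1]
    · rw [min_low h1 h2, hC_tau, ← hC_tau γ]
      exact min_le_min_right _ (arcosh_le_dTH _ _)
  · exact term_le γ q q'

/-- Near a point with good `γ`. -/
theorem DD_eq_of_good {γ : SL2Gi} {q q' q'' : Bor.Core} (hg : Good γ q)
    (h' : hC q.1.1 q'.1.1 ≤ 2) (h'' : hC q.1.1 q''.1.1 ≤ 2) :
    DD q' q'' = min (dTH (tau γ q') (tau γ q'')) 1 := by
  apply DD_eq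
  intro γ'
  rcases hg γ' with h | h
  · exact Or.inl h
  · exact Or.inr ⟨low_of h h', low_of h h''⟩

theorem tau_injective (γ : SL2Gi) : Function.Injective (tau γ) := by
  intro q q' h
  have h1 : (D4⁻¹ • (toC γ • q.1)) = (D4⁻¹ • (toC γ • q'.1)) := by
    have h2 := congrArg Subtype.val h
    exact Subtype.ext h2
  have h2 := smul_left_cancel _ h1
  have h3 := smul_left_cancel _ h2
  exact Subtype.ext h3

theorem dTH_self (x : TH) : dTH x x = 0 := dT_self x.1 x.2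

theorem dTH_comm (x y : TH) : dTH x y = dTH y x := dT_comm x.1 y.1

theorem dTH_nonneg (x y : TH) : 0 ≤ dTH x y := dT_nonneg x.2 y.2

theorem dTH_triangle (x y z : TH) : dTH x z ≤ dTH x y + dTH y z := by
  obtain ⟨m, hm, -⟩ := truncHyp
  rw [← hm, ← hm, ← hm]
  exact m.dist_triangle x y z

theorem eq_of_dTH (x y : TH) (h : dTH x y = 0) : x = y :=
  Subtype.ext (eq_of_dT x.2 y.2 h)

/-- The metric. -/
noncomputable def coreM : MetricSpace Bor.Core where
  dist := DD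
  dist_self q := by
    apply le_antisymm
    · apply DD_le
      intro γ
      rw [dTH_self]
      exact min_le_left _ _
    · refine le_trans ?_ (term_le 1 q q)
      rw [dTH_self]
      exact le_min le_rfl zero_le_one
  dist_comm q q' := by
    unfold DD
    simp only [dTH_comm (tau _ q) (tau _ q')]
  dist_triangle q q' q'' := by
    apply DD_le
    intro γ
    have h1 := term_le γ q q'
    have h2 := term_le γ q' q''
    have h3 := dTH_triangle (tau γ q) (tau γ q') (tau γ q'')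
    have h4 := dTH_nonneg (tau γ q) (tau γ q')
    have h5 := dTH_nonneg (tau γ q') (tau γ q'')
    rcases le_total (dTH (tau γ q) (tau γ q')) 1 with h6 | h6 <;>
    rcases le_total (dTH (tau γ q') (tau γ q'')) 1 with h7 | h7 <;>
    simp only [min_eq_left h6, min_eq_left h7, min_eq_right h6, min_eq_right h7] at h1 h2 <;>
    [exact (min_le_left _ _).trans (by linarith); exact (min_le_right _ _).trans (by linarith);
      exact (min_le_right _ _).trans (by linarith); exact (min_le_right _ _).trans (by linarith)]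
  eq_of_dist_eq_zero := by
    intro q q' h
    have h1 := term_le 1 q q'
    change DD q q' = 0 at h
    rw [h] at h1
    have h2 := dTH_nonneg (tau 1 q) (tau 1 q')
    rcases min_le_iff.1 h1 with h3 | h3
    · exact tau_injective 1 (eq_of_dTH _ _ (le_antisymm h3 h2))
    · linarith

end Pool.Agent.Work.MP_f0c219_gt.CoreMetric
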